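import Mathlib

set_option autoImplicit false

open Filter Topology

namespace Pool.Agent.TH396.PS

/-- bounded real function -/
def Bdd {α : Type*} (f : α → ℝ) : Prop := ∃ C : ℝ, ∀ x, |f x| ≤ C

/-- average over a finite set -/
noncomputable def avg {α : Type*} (Q : Finset α) (f : α → ℝ) : ℝ := (∑ x ∈ Q, f x) / Q.card

theorem tendsto_ulim {α : Type*} (p : Ultrafilter α) (f : α → ℝ) (hf : Bdd f) :
    Tendsto f p (𝓝 (limUnder (p : Filter α) f)) := by
  obtain ⟨C, hC⟩ := hf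
  have hK : IsCompact (Set.Icc (-C) C) := isCompact_Icc
  have h1 : ((p.map f : Ultrafilter ℝ) : Filter ℝ) ≤ 𝓟 (Set.Icc (-C) C) := by
    rw [Filter.le_principal_iff]
    show f ⁻¹' (Set.Icc (-C) C) ∈ (p : Filter α)
    have : f ⁻¹' (Set.Icc (-C) C) = Set.univ := by
      ext x
      simp only [Set.mem_preimage, Set.mem_Icc, Set.mem_univ, iff_true]
      exact abs_le.mp (hC x)
    rw [this]
    exact Filter.univ_mem
  obtain ⟨a, _, ha⟩ := hK.ultrafilter_le_nhds (p.map f) h1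
  exact tendsto_nhds_limUnder ⟨a, ha⟩

namespace Bdd

variable {α : Type*}

theorem const (c : ℝ) : Bdd (fun _ : α => c) := ⟨|c|, fun _ => le_rfl⟩

theorem add {f g : α → ℝ} (hf : Bdd f) (hg : Bdd g) : Bdd (fun x => f x + g x) := by
  obtain ⟨C, hC⟩ := hf
  obtain ⟨D, hD⟩ := hg
  exact ⟨C + D, fun x => (abs_add_le _ _).trans (add_le_add (hC x) (hD x))⟩

theorem sub {f g : α → ℝ} (hf : Bdd f) (hg : Bdd g) : Bdd (fun x => f x - g x) := by
  obtain ⟨C, hC⟩ := hf
  obtain ⟨D, hD⟩ := hg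
  exact ⟨C + D, fun x => (abs_sub _ _).trans (add_le_add (hC x) (hD x))⟩

theorem mul {f g : α → ℝ} (hf : Bdd f) (hg : Bdd g) : Bdd (fun x => f x * g x) := by
  obtain ⟨C, hC⟩ := hf
  obtain ⟨D, hD⟩ := hg
  refine ⟨C * D, fun x => ?_⟩
  rw [abs_mul]
  exact mul_le_mul (hC x) (hD x) (abs_nonneg _) ((abs_nonneg _).trans (hC x))

theorem smul {f : α → ℝ} (c : ℝ) (hf : Bdd f) : Bdd (fun x => c * f x) := (const c).mul hf

theorem neg {f : α → ℝ} (hf : Bdd f) : Bdd (fun x => - f x) := by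
  obtain ⟨C, hC⟩ := hf
  exact ⟨C, fun x => by rw [abs_neg]; exact hC x⟩

theorem abs {f : α → ℝ} (hf : Bdd f) : Bdd (fun x => |f x|) := by
  obtain ⟨C, hC⟩ := hf
  exact ⟨C, fun x => by rw [abs_abs]; exact hC x⟩

theorem comp {β : Type*} {f : α → ℝ} (hf : Bdd f) (e : β → α) : Bdd (fun x => f (e x)) := by
  obtain ⟨C, hC⟩ := hf
  exact ⟨C, fun x => hC _⟩

theorem sum {ι : Type*} (s : Finset ι) {f : ι → α → ℝ} (hf : ∀ i ∈ s, Bdd (f i)) :
    Bdd (fun x => ∑ i ∈ s, f i x) := by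
  classical
  induction s using Finset.induction_on with
  | empty => simpa using const (α := α) 0
  | insert a s ha ih =>
    simp only [Finset.sum_insert ha]
    exact (hf a (Finset.mem_insert_self _ _)).add
      (ih fun i hi => hf i (Finset.mem_insert_of_mem hi))

theorem of_le {f g : α → ℝ} (hg : Bdd g) (h : ∀ x, |f x| ≤ g x) : Bdd f := by
  obtain ⟨C, hC⟩ := hg
  exact ⟨C, fun x => (h x).trans ((le_abs_self _).trans (hC x))⟩

theorem of_mem {f : α → ℝ} (a b : ℝ) (h : ∀ x, a ≤ f x ∧ f x ≤ b) : Bdd f := by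
  refine ⟨max |a| |b|, fun x => ?_⟩
  rw [abs_le]
  constructor
  · have := (h x).1
    have h2 := neg_abs_le a
    have h3 := le_max_left |a| |b|
    linarith
  · have := (h x).2
    have h2 := le_abs_self b
    have h3 := le_max_right |a| |b|
    linarith

end Bdd

theorem avg_add {α : Type*} (Q : Finset α) (f g : α → ℝ) :
    avg Q (fun x => f x + g x) = avg Q f + avg Q g := by
  simp only [avg, Finset.sum_add_distrib, add_div]

theorem avg_smul {α : Type*} (Q : Finset α) (c : ℝ) (f : α → ℝ) :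
    avg Q (fun x => c * f x) = c * avg Q f := by
  simp only [avg, ← Finset.mul_sum, mul_div_assoc]

theorem avg_mono {α : Type*} (Q : Finset α) {f g : α → ℝ} (h : ∀ x, f x ≤ g x) :
    avg Q f ≤ avg Q g := by
  unfold avg
  gcongr
  exact h _

theorem avg_const {α : Type*} {Q : Finset α} (hQ : Q.Nonempty) (c : ℝ) :
    avg Q (fun _ => c) = c := by
  have : (Q.card : ℝ) ≠ 0 := by exact_mod_cast hQ.card_pos.ne'
  simp only [avg, Finset.sum_const, nsmul_eq_mul]
  field_simp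

theorem abs_avg_le {α : Type*} (Q : Finset α) {f : α → ℝ} {C : ℝ} (h : ∀ x, |f x| ≤ C) (hC : 0 ≤ C) :
    |avg Q f| ≤ C := by
  rcases Q.eq_empty_or_nonempty with rfl | hQ
  · simpa [avg] using hC
  · rw [abs_le]
    constructor
    · have := avg_mono Q (f := fun _ => -C) (g := f) (fun x => (abs_le.mp (h x)).1)
      rwa [avg_const hQ] at this
    · have := avg_mono Q (f := f) (g := fun _ => C) (fun x => (abs_le.mp (h x)).2)
      rwa [avg_const hQ] at this

/-- shift estimate -/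
theorem avg_shift {α : Type*} [DecidableEq α] (e : α ≃ α) (Q : Finset α) (f : α → ℝ) {C : ℝ}
    (hC : ∀ x, |f x| ≤ C) (hQ : Q.Nonempty) :
    |avg Q (fun x => f (e x)) - avg Q f| ≤
      2 * C * (1 - (((Q.image e) ∩ Q).card : ℝ) / Q.card) := by
  have hq : (0 : ℝ) < Q.card := by exact_mod_cast hQ.card_pos
  have h1 : ∑ x ∈ Q, f (e x) = ∑ y ∈ Q.image e, f y := by
    rw [Finset.sum_image]
    intro a _ b _ h
    exact e.injective h
  have hcard : (Q.image e).card = Q.card := Finset.card_image_of_injective _ e.injective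
  have h2 : ∑ y ∈ Q.image e, f y = ∑ y ∈ (Q.image e) \ Q, f y + ∑ y ∈ (Q.image e) ∩ Q, f y := by
    rw [add_comm, Finset.sum_inter_add_sum_sdiff]
  have h3 : ∑ y ∈ Q, f y = ∑ y ∈ Q \ (Q.image e), f y + ∑ y ∈ (Q.image e) ∩ Q, f y := by
    rw [add_comm, Finset.inter_comm, Finset.sum_inter_add_sum_sdiff]
  have hc1 : (((Q.image e) \ Q).card : ℝ) = Q.card - ((Q.image e) ∩ Q).card := by
    have := Finset.card_sdiff_add_card_inter (Q.image e) Q
    rw [hcard] at this
    have h' : ((((Q.image e) \ Q).card + ((Q.image e) ∩ Q).card : ℕ) : ℝ) = Q.card := by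
      exact_mod_cast this
    push_cast at h'
    linarith
  have hc2 : ((Q \ (Q.image e)).card : ℝ) = Q.card - ((Q.image e) ∩ Q).card := by
    have := Finset.card_sdiff_add_card_inter Q (Q.image e)
    rw [Finset.inter_comm] at this
    have h' : (((Q \ (Q.image e)).card + ((Q.image e) ∩ Q).card : ℕ) : ℝ) = Q.card := by
      exact_mod_cast this
    push_cast at h'
    linarith
  have hb : ∀ S : Finset α, |∑ y ∈ S, f y| ≤ S.card * C := by
    intro S
    calc |∑ y ∈ S, f y| ≤ ∑ y ∈ S, |f y| := Finset.abs_sum_le_sum_abs _ _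
      _ ≤ ∑ y ∈ S, C := Finset.sum_le_sum fun y _ => hC y
      _ = S.card * C := by simp
  have h4 : avg Q (fun x => f (e x)) - avg Q f =
      (∑ y ∈ (Q.image e) \ Q, f y - ∑ y ∈ Q \ (Q.image e), f y) / Q.card := by
    unfold avg
    rw [← sub_div, h1, h2, h3]
    congr 1
    ring
  rw [h4, abs_div, abs_of_pos hq, div_le_iff₀ hq]
  calc |∑ y ∈ (Q.image e) \ Q, f y - ∑ y ∈ Q \ (Q.image e), f y|
      ≤ |∑ y ∈ (Q.image e) \ Q, f y| + |∑ y ∈ Q \ (Q.image e), f y| := abs_sub _ _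
    _ ≤ ((Q.image e) \ Q).card * C + (Q \ (Q.image e)).card * C := add_le_add (hb _) (hb _)
    _ = 2 * C * (1 - (((Q.image e) ∩ Q).card : ℝ) / Q.card) * Q.card := by
      rw [hc1, hc2]
      field_simp
      ring

/-- A bi-invariant mean on bounded functions that is a limit of finite averages. -/
structure Mean (G : Type*) [Group G] where
  M : (G → ℝ) → ℝ
  add' : ∀ f g, Bdd f → Bdd g → M (fun x => f x + g x) = M f + M g
  smul' : ∀ (c : ℝ) f, Bdd f → M (fun x => c * f x) = c * M f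
  mono' : ∀ f g, Bdd f → Bdd g → (∀ x, f x ≤ g x) → M f ≤ M g
  const' : ∀ c : ℝ, M (fun _ => c) = c
  left' : ∀ (a : G) f, Bdd f → M (fun x => f (a * x)) = M f
  right' : ∀ (a : G) f, Bdd f → M (fun x => f (x * a)) = M f
  approx' : ∀ (S : Set (G → ℝ)), S.Finite → (∀ f ∈ S, Bdd f) → ∀ η > 0, ∃ Q : Finset G,
    Q.Nonempty ∧ ∀ f ∈ S, |avg Q f - M f| ≤ η

/-- existence of a bi-invariant mean from a two-sided Følner sequence -/
theorem exists_mean {G : Type*} [Group G] [DecidableEq G] (Φ : ℕ → Finset G)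
    (hne : ∀ N, (Φ N).Nonempty)
    (hl : ∀ g : G, Tendsto (fun N => ((((Φ N).image (fun x => g * x)) ∩ Φ N).card : ℝ) / (Φ N).card)
      atTop (𝓝 1))
    (hr : ∀ g : G, Tendsto (fun N => ((((Φ N).image (fun x => x * g)) ∩ Φ N).card : ℝ) / (Φ N).card)
      atTop (𝓝 1))
    (A : Set G) (α : ℝ) (hA : ∃ᶠ N in atTop, α ≤ avg (Φ N) (A.indicator 1)) :
    ∃ m : Mean G, α ≤ m.M (A.indicator 1) := by
  classical
  -- choose an ultrafilter finer than atTop, containing the frequent set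
  have hneBot : NeBot (atTop ⊓ 𝓟 {N | α ≤ avg (Φ N) (A.indicator 1)}) := by
    rw [Filter.inf_principal_neBot_iff]
    intro U hU
    obtain ⟨N, hN1, hN2⟩ := (hA.and_eventually hU).exists
    exact ⟨N, hN2, hN1⟩
  obtain ⟨𝒰, h𝒰⟩ := Ultrafilter.exists_le (atTop ⊓ 𝓟 {N | α ≤ avg (Φ N) (A.indicator 1)})
  have h𝒰1 : (𝒰 : Filter ℕ) ≤ atTop := h𝒰.trans inf_le_left
  have h𝒰2 : ∀ᶠ N in (𝒰 : Filter ℕ), α ≤ avg (Φ N) (A.indicator 1) := by
    have : (𝒰 : Filter ℕ) ≤ 𝓟 {N | α ≤ avg (Φ N) (A.indicator 1)} := h𝒰.trans inf_le_right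
    exact Filter.le_principal_iff.mp this
  set M : (G → ℝ) → ℝ := fun f => limUnder (𝒰 : Filter ℕ) (fun N => avg (Φ N) f) with hM
  have hb : ∀ f : G → ℝ, Bdd f → Bdd (fun N => avg (Φ N) f) := by
    rintro f ⟨C, hC⟩
    refine ⟨|C|, fun N => ?_⟩
    exact abs_avg_le _ (fun x => (hC x).trans (le_abs_self C)) (abs_nonneg _)
  have ht : ∀ f : G → ℝ, Bdd f → Tendsto (fun N => avg (Φ N) f) 𝒰 (𝓝 (M f)) := fun f hf =>
    tendsto_ulim 𝒰 _ (hb f hf)
  have hind : Bdd (A.indicator (1 : G → ℝ)) := by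
    refine ⟨1, fun x => ?_⟩
    by_cases hx : x ∈ A <;> simp [hx]
  have hshift : ∀ (e : G ≃ G) (f : G → ℝ), Bdd f →
      Tendsto (fun N => ((((Φ N).image e) ∩ Φ N).card : ℝ) / (Φ N).card) atTop (𝓝 1) →
      M (fun x => f (e x)) = M f := by
    intro e f hf he
    obtain ⟨C, hC⟩ := hf
    have h1 : Tendsto (fun N => avg (Φ N) (fun x => f (e x)) - avg (Φ N) f) atTop (𝓝 0) := by
      have h2 : Tendsto (fun N => 2 * C * (1 - ((((Φ N).image e) ∩ Φ N).card : ℝ) / (Φ N).card))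
          atTop (𝓝 0) := by
        have := (he.const_sub 1).const_mul (2 * C)
        simpa using this
      exact squeeze_zero_norm (fun N => avg_shift e (Φ N) f hC (hne N)) h2
    have h3 := (ht _ (Bdd.comp ⟨C, hC⟩ e)).sub (ht f ⟨C, hC⟩)
    have h4 := tendsto_nhds_unique h3 (h1.mono_left h𝒰1)
    linarith
  refine ⟨⟨M, ?_, ?_, ?_, ?_, ?_, ?_, ?_⟩, ?_⟩
  · intro f g hf hg
    refine tendsto_nhds_unique (ht _ (hf.add hg)) ?_
    simp only [avg_add]
    exact (ht f hf).add (ht g hg)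
  · intro c f hf
    refine tendsto_nhds_unique (ht _ (hf.smul c)) ?_
    simp only [avg_smul]
    exact (ht f hf).const_mul c
  · intro f g hf hg h
    exact le_of_tendsto_of_tendsto' (ht f hf) (ht g hg) (fun N => avg_mono _ h)
  · intro c
    refine tendsto_nhds_unique (ht _ (Bdd.const c)) ?_
    simp only [avg_const (hne _)]
    exact tendsto_const_nhds
  · intro a f hf
    exact hshift (Equiv.mulLeft a) f hf (hl a)
  · intro a f hf
    exact hshift (Equiv.mulRight a) f hf (hr a)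
  · intro S hS hSb η hη
    have : ∀ᶠ N in (𝒰 : Filter ℕ), ∀ f ∈ S, |avg (Φ N) f - M f| ≤ η := by
      rw [Filter.eventually_all_finite hS]
      intro f hf
      have := (ht f (hSb f hf))
      rw [Metric.tendsto_nhds] at this
      filter_upwards [this η hη] with N hN
      exact hN.le
    obtain ⟨N, hN⟩ := this.exists
    exact ⟨Φ N, hne N, hN⟩
  · exact ge_of_tendsto (ht _ hind) h𝒰2

end Pool.Agent.TH396.PS
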