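import Mathlib
import Pool.Agent.TH396.PS.Mean

set_option autoImplicit false

open Filter Topology

namespace Pool.Agent.TH396.PS

namespace Mean

variable {G : Type*} [Group G] (m : Mean G)

theorem nonneg {f : G → ℝ} (hf : Bdd f) (h : ∀ x, 0 ≤ f x) : 0 ≤ m.M f := by
  have := m.mono' (fun _ => 0) f (Bdd.const 0) hf h
  rwa [m.const'] at this

theorem sub {f g : G → ℝ} (hf : Bdd f) (hg : Bdd g) :
    m.M (fun x => f x - g x) = m.M f - m.M g := by
  have h1 := m.add' f (fun x => (-1) * g x) hf (hg.smul (-1))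
  rw [m.smul' (-1) g hg] at h1
  have h2 : (fun x => f x - g x) = (fun x => f x + (-1) * g x) := by
    funext x; ring
  rw [h2, h1]; ring

theorem neg {f : G → ℝ} (hf : Bdd f) : m.M (fun x => - f x) = - m.M f := by
  have h1 := m.smul' (-1) f hf
  have h2 : (fun x => - f x) = (fun x => (-1) * f x) := by
    funext x; ring
  rw [h2, h1]; ring

theorem sum {ι : Type*} (s : Finset ι) {f : ι → G → ℝ} (hf : ∀ i ∈ s, Bdd (f i)) :
    m.M (fun x => ∑ i ∈ s, f i x) = ∑ i ∈ s, m.M (f i) := by
  classical
  induction s using Finset.induction_on with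
  | empty => simpa using m.const' 0
  | insert a s ha ih =>
    simp only [Finset.sum_insert ha]
    rw [m.add' (f a) (fun x => ∑ i ∈ s, f i x) (hf a (Finset.mem_insert_self _ _))
      (Bdd.sum s fun i hi => hf i (Finset.mem_insert_of_mem hi)),
      ih fun i hi => hf i (Finset.mem_insert_of_mem hi)]

theorem bound {f : G → ℝ} {C : ℝ} (h : ∀ x, |f x| ≤ C) : |m.M f| ≤ C := by
  have hf : Bdd f := ⟨C, h⟩
  rw [abs_le]
  constructor
  · have := m.mono' (fun _ => -C) f (Bdd.const _) hf (fun x => (abs_le.mp (h x)).1)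
    rwa [m.const'] at this
  · have := m.mono' f (fun _ => C) hf (Bdd.const _) (fun x => (abs_le.mp (h x)).2)
    rwa [m.const'] at this

theorem abs_le_abs {f : G → ℝ} (hf : Bdd f) : |m.M f| ≤ m.M (fun x => |f x|) := by
  rw [abs_le]
  constructor
  · have := m.mono' (fun x => -|f x|) f hf.abs.neg hf (fun x => neg_abs_le _)
    rwa [m.neg hf.abs] at this
  · exact m.mono' f _ hf hf.abs (fun x => le_abs_self _)

theorem close {f g : G → ℝ} (hf : Bdd f) (hg : Bdd g) {C : ℝ} (h : ∀ x, |f x - g x| ≤ C) :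
    |m.M f - m.M g| ≤ C := by
  rw [← m.sub hf hg]
  exact m.bound h

theorem single_null [Infinite G] (a : G) : m.M (({a} : Set G).indicator 1) = 0 := by
  classical
  have hb : ∀ a : G, Bdd (({a} : Set G).indicator (1 : G → ℝ)) := by
    intro a
    refine ⟨1, fun x => ?_⟩
    by_cases hx : x = a <;> simp [hx]
  have h0 : ∀ a : G, m.M (({a} : Set G).indicator 1) = m.M (({1} : Set G).indicator 1) := by
    intro a
    have := m.left' a⁻¹ (({1} : Set G).indicator 1) (hb 1)
    rw [← this]
    congr 1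
    funext x
    by_cases hx : x = a
    · simp [hx]
    · have : ¬ (a⁻¹ * x = 1) := fun h => hx (by rw [inv_mul_eq_one] at h; exact h.symm)
      simp [hx, this]
  set t := m.M (({1} : Set G).indicator 1) with ht
  have ht0 : 0 ≤ t := m.nonneg (hb 1) (fun x => Set.indicator_nonneg (fun _ _ => zero_le_one) _)
  have hn : ∀ n : ℕ, (n : ℝ) * t ≤ 1 := by
    intro n
    obtain ⟨S, hS⟩ := Infinite.exists_subset_card_eq G n
    have h1 := m.sum S (f := fun a => ({a} : Set G).indicator 1) (fun i _ => hb i)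
    have h2 : ∑ i ∈ S, m.M (({i} : Set G).indicator 1) = n * t := by
      rw [Finset.sum_congr rfl (fun i _ => h0 i)]
      simp [hS]
    rw [h2] at h1
    rw [← h1, ← m.const' 1]
    refine m.mono' _ _ (Bdd.sum S fun i _ => hb i) (Bdd.const 1) (fun x => ?_)
    by_cases hx : x ∈ S
    · rw [Finset.sum_eq_single x]
      · simp
      · intro b _ hb'
        have : x ≠ b := fun h => hb' h.symm
        simp [this]
      · intro h; exact absurd hx h
    · rw [Finset.sum_eq_zero]
      · exact zero_le_one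
      · intro i hi
        have : x ≠ i := fun h => hx (h ▸ hi)
        simp [this]
  rw [h0]
  by_contra hne
  have hpos : 0 < t := lt_of_le_of_ne ht0 (Ne.symm hne)
  obtain ⟨n, hn'⟩ := exists_nat_gt (1 / t)
  have := hn n
  rw [div_lt_iff₀ hpos] at hn'
  linarith

theorem finite_null [Infinite G] (E : Finset G) {f : G → ℝ} (hf : Bdd f) (h : ∀ x ∉ E, f x = 0) :
    m.M f = 0 := by
  classical
  obtain ⟨C, hC⟩ := hf
  have hb : ∀ a : G, Bdd (({a} : Set G).indicator (1 : G → ℝ)) := by
    intro a
    refine ⟨1, fun x => ?_⟩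
    by_cases hx : x = a <;> simp [hx]
  have hC0 : 0 ≤ C := (abs_nonneg _).trans (hC 1)
  have hs : Bdd (fun x => ∑ i ∈ E, ({i} : Set G).indicator (1 : G → ℝ) x) :=
    Bdd.sum E fun i _ => hb i
  have h1 : m.M (fun x => C * ∑ i ∈ E, ({i} : Set G).indicator (1 : G → ℝ) x) = 0 := by
    rw [m.smul' C _ hs, m.sum E (fun i _ => hb i),
      Finset.sum_eq_zero (fun i _ => m.single_null i), mul_zero]
  have h2 : |m.M f| ≤ 0 := by
    rw [← h1]
    refine (m.abs_le_abs ⟨C, hC⟩).trans ?_
    refine m.mono' _ _ (Bdd.abs ⟨C, hC⟩) (hs.smul C) (fun x => ?_)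
    by_cases hx : x ∈ E
    · rw [Finset.sum_eq_single x]
      · simpa using hC x
      · intro b _ hb'
        have : x ≠ b := fun h => hb' h.symm
        simp [this]
      · intro h; exact absurd hx h
    · rw [h x hx, abs_zero]
      exact mul_nonneg hC0 (Finset.sum_nonneg fun i _ =>
        Set.indicator_nonneg (fun _ _ => zero_le_one) _)
  exact abs_nonpos_iff.mp h2

/-- monotonicity off a finite set -/
theorem mono_off [Infinite G] (E : Finset G) {f g : G → ℝ} (hf : Bdd f) (hg : Bdd g)
    (h : ∀ x ∉ E, f x ≤ g x) : m.M f ≤ m.M g := by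
  classical
  set k : G → ℝ := fun x => if x ∈ E then f x - g x else 0 with hk
  have hkb : Bdd k := by
    obtain ⟨C, hC⟩ := hf.sub hg
    refine ⟨|C|, fun x => ?_⟩
    by_cases hx : x ∈ E
    · simp only [hk, hx, if_true]
      exact (hC x).trans (le_abs_self C)
    · simp [hk, hx]
  have h0 : m.M k = 0 := m.finite_null E hkb (fun x hx => by simp [hk, hx])
  have h1 : m.M f ≤ m.M (fun x => g x + k x) := by
    refine m.mono' _ _ hf (hg.add hkb) (fun x => ?_)
    by_cases hx : x ∈ E
    · simp [hk, hx]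
    · simp only [hk, hx, if_false, add_zero]
      exact h x hx
  rw [m.add' g k hg hkb, h0, add_zero] at h1
  exact h1

end Mean

end Pool.Agent.TH396.PS
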