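import Mathlib
import Pool.Agent.TH396.PS.Mean2

set_option autoImplicit false

open Filter Topology MeasureTheory

namespace Pool.Agent.TH396.PS

instance instMSUltra (G : Type*) : MeasurableSpace (Ultrafilter G) := borel _
instance instBSUltra (G : Type*) : BorelSpace (Ultrafilter G) := ⟨rfl⟩

/-- extension of a bounded function to the space of ultrafilters -/
noncomputable def ext {G : Type*} (f : G → ℝ) (p : Ultrafilter G) : ℝ := limUnder (p : Filter G) f

variable {G : Type*}

theorem tendsto_ext {f : G → ℝ} (hf : Bdd f) (p : Ultrafilter G) :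
    Tendsto f p (𝓝 (ext f p)) := tendsto_ulim p f hf

theorem ext_eq {f : G → ℝ} {p : Ultrafilter G} {a : ℝ} (h : Tendsto f p (𝓝 a)) : ext f p = a :=
  h.limUnder_eq

theorem ext_pure (f : G → ℝ) (s : G) : ext f (pure s : Ultrafilter G) = f s := by
  apply ext_eq
  show Tendsto f (pure s) (𝓝 (f s))
  exact tendsto_pure_nhds f s

theorem ext_mono {f g : G → ℝ} (hf : Bdd f) (hg : Bdd g) (h : ∀ x, f x ≤ g x) (p : Ultrafilter G) :
    ext f p ≤ ext g p :=
  le_of_tendsto_of_tendsto' (tendsto_ext hf p) (tendsto_ext hg p) h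

theorem ext_const (c : ℝ) (p : Ultrafilter G) : ext (fun _ => c) p = c := ext_eq tendsto_const_nhds

theorem ext_add {f g : G → ℝ} (hf : Bdd f) (hg : Bdd g) (p : Ultrafilter G) :
    ext (fun x => f x + g x) p = ext f p + ext g p :=
  ext_eq ((tendsto_ext hf p).add (tendsto_ext hg p))

theorem ext_sub {f g : G → ℝ} (hf : Bdd f) (hg : Bdd g) (p : Ultrafilter G) :
    ext (fun x => f x - g x) p = ext f p - ext g p :=
  ext_eq ((tendsto_ext hf p).sub (tendsto_ext hg p))

theorem ext_mul {f g : G → ℝ} (hf : Bdd f) (hg : Bdd g) (p : Ultrafilter G) :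
    ext (fun x => f x * g x) p = ext f p * ext g p :=
  ext_eq ((tendsto_ext hf p).mul (tendsto_ext hg p))

theorem ext_bound {f : G → ℝ} {C : ℝ} (h : ∀ x, |f x| ≤ C) (p : Ultrafilter G) : |ext f p| ≤ C :=
  le_of_tendsto' (tendsto_ext ⟨C, h⟩ p).abs h

theorem ext_nonneg {f : G → ℝ} (hf : Bdd f) (h : ∀ x, 0 ≤ f x) (p : Ultrafilter G) : 0 ≤ ext f p :=
  ge_of_tendsto' (tendsto_ext hf p) h

theorem ext_close {f g : G → ℝ} (hf : Bdd f) (hg : Bdd g) {C : ℝ} (h : ∀ x, |f x - g x| ≤ C)
    (p : Ultrafilter G) : |ext f p - ext g p| ≤ C := by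
  rw [← ext_sub hf hg]
  exact ext_bound h p

theorem ext_map {H : Type*} (e : G → H) (f : H → ℝ) (p : Ultrafilter G) :
    ext f (p.map e) = ext (fun x => f (e x)) p := by
  unfold ext limUnder
  rw [Ultrafilter.coe_map, Filter.map_map]
  rfl

theorem ext_indicator (A : Set G) (p : Ultrafilter G) :
    ext (A.indicator 1) p = ({q : Ultrafilter G | A ∈ q}.indicator 1 : Ultrafilter G → ℝ) p := by
  apply ext_eq
  by_cases h : A ∈ p
  · have : ({q : Ultrafilter G | A ∈ q}.indicator 1 : Ultrafilter G → ℝ) p = 1 := by
      simp [h]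
    rw [this]
    refine tendsto_const_nhds.congr' ?_
    filter_upwards [h] with x hx
    simp [hx]
  · have : ({q : Ultrafilter G | A ∈ q}.indicator 1 : Ultrafilter G → ℝ) p = 0 := by
      simp [h]
    rw [this]
    refine tendsto_const_nhds.congr' ?_
    filter_upwards [Ultrafilter.compl_mem_iff_notMem.mpr h] with x hx
    simp only [Set.mem_compl_iff] at hx
    simp [hx]

theorem continuous_ext {f : G → ℝ} (hf : Bdd f) : Continuous (ext f) := by
  rw [continuous_iff_continuousAt]
  intro p
  rw [Metric.continuousAt_iff']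
  intro ε hε
  have h1 : ∀ᶠ s in (p : Filter G), |f s - ext f p| < ε / 2 := by
    have := (Metric.tendsto_nhds.mp (tendsto_ext hf p)) (ε / 2) (by positivity)
    simpa [Real.dist_eq] using this
  have h2 : {q : Ultrafilter G | {s | |f s - ext f p| < ε / 2} ∈ q} ∈ 𝓝 p :=
    (ultrafilter_isOpen_basic _).mem_nhds h1
  filter_upwards [h2] with q hq
  have h3 : |ext f q - ext f p| ≤ ε / 2 := by
    have h4 : Tendsto (fun s => |f s - ext f p|) q (𝓝 |ext f q - ext f p|) :=
      ((tendsto_ext hf q).sub_const _).abs
    refine le_of_tendsto h4 ?_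
    filter_upwards [hq] with s hs
    exact hs.le
  rw [Real.dist_eq]
  linarith

theorem continuous_umap (e : G → G) : Continuous (fun p : Ultrafilter G => p.map e) := by
  refine continuous_generateFrom_iff.mpr ?_
  rintro _ ⟨s, rfl⟩
  have : (fun p : Ultrafilter G => p.map e) ⁻¹' {u | s ∈ u} = {u | e ⁻¹' s ∈ u} := by
    ext p
    simp [Ultrafilter.mem_map]
  rw [this]
  exact ultrafilter_isOpen_basic _

/-- homeomorphism of the ultrafilter space induced by a permutation -/
noncomputable def uhomeo (e : G ≃ G) : Ultrafilter G ≃ₜ Ultrafilter G where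
  toFun p := p.map e
  invFun p := p.map e.symm
  left_inv p := by
    ext s
    simp
  right_inv p := by
    ext s
    simp
  continuous_toFun := continuous_umap e
  continuous_invFun := continuous_umap e.symm

theorem uhomeo_apply (e : G ≃ G) (p : Ultrafilter G) : uhomeo e p = p.map e := rfl

theorem uhomeo_pure (e : G ≃ G) (s : G) :
    uhomeo e (pure s : Ultrafilter G) = (pure (e s) : Ultrafilter G) := by
  rw [uhomeo_apply]
  ext t
  simp

theorem bdd_of_continuous {φ : Ultrafilter G → ℝ} (h : Continuous φ) : Bdd φ := by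
  obtain ⟨C, hC⟩ := isCompact_univ.exists_bound_of_continuousOn h.continuousOn
  exact ⟨C, fun x => by simpa using hC x (Set.mem_univ x)⟩

section measure

variable [Group G] (m : Mean G)

/-- positive functional on continuous functions given by the mean -/
noncomputable def lam : CompactlySupportedContinuousMap (Ultrafilter G) ℝ →ₚ[ℝ] ℝ where
  toFun φ := m.M (fun s => φ (pure s))
  map_add' φ ψ := by
    exact m.add' _ _ ((bdd_of_continuous φ.continuous).comp _) ((bdd_of_continuous ψ.continuous).comp _)
  map_smul' c φ := by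
    simpa using m.smul' c _ ((bdd_of_continuous φ.continuous).comp (fun s : G => (pure s : Ultrafilter G)))
  monotone' φ ψ h := by
    exact m.mono' _ _ ((bdd_of_continuous φ.continuous).comp _) ((bdd_of_continuous ψ.continuous).comp _)
      (fun s => h _)

/-- the measure on the space of ultrafilters -/
noncomputable def mu : Measure (Ultrafilter G) := RealRMK.rieszMeasure (lam m)

instance : (mu m).Regular := by unfold mu; infer_instance

instance : IsFiniteMeasure (mu m) := by unfold mu; infer_instance

theorem integral_mu {φ : Ultrafilter G → ℝ} (h : Continuous φ) :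
    ∫ p, φ p ∂(mu m) = m.M (fun s => φ (pure s)) := by
  have := RealRMK.integral_rieszMeasure (lam m) ⟨⟨φ, h⟩, HasCompactSupport.of_compactSpace _⟩
  exact this

theorem integral_ext {f : G → ℝ} (hf : Bdd f) : ∫ p, ext f p ∂(mu m) = m.M f := by
  rw [integral_mu m (continuous_ext hf)]
  simp only [ext_pure]

instance : IsProbabilityMeasure (mu m) := by
  constructor
  have h1 : ∫ p, (1 : ℝ) ∂(mu m) = 1 := by
    rw [integral_mu m continuous_const]
    exact m.const' 1
  rw [integral_const, smul_eq_mul, mul_one] at h1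
  have h2 : ((mu m) Set.univ).toReal = 1 := h1
  rw [← ENNReal.ofReal_toReal (measure_ne_top (mu m) Set.univ), h2, ENNReal.ofReal_one]

theorem measurePreserving_of (e : G ≃ G) (he : ∀ f, Bdd f → m.M (fun x => f (e x)) = m.M f) :
    MeasurePreserving (uhomeo e) (mu m) (mu m) := by
  refine ⟨(uhomeo e).measurable, ?_⟩
  have hreg : (Measure.map (uhomeo e) (mu m)).Regular := Measure.Regular.map (uhomeo e)
  apply Measure.ext_of_integral_eq_on_compactlySupported
  intro φ
  have hc : Continuous (fun x => φ x) := φ.continuous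
  rw [integral_map (uhomeo e).measurable.aemeasurable hc.aestronglyMeasurable]
  have hc2 : Continuous (fun x => φ (uhomeo e x)) := hc.comp (uhomeo e).continuous
  rw [integral_mu m hc2, integral_mu m hc]
  simp only [uhomeo_pure]
  exact he (fun s => φ (pure s)) ((bdd_of_continuous φ.continuous).comp _)

theorem mp_left (a : G) : MeasurePreserving (uhomeo (Equiv.mulLeft a)) (mu m) (mu m) :=
  measurePreserving_of m _ (fun f hf => m.left' a f hf)

theorem mp_right (a : G) : MeasurePreserving (uhomeo (Equiv.mulRight a)) (mu m) (mu m) :=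
  measurePreserving_of m _ (fun f hf => m.right' a f hf)

theorem mu_basic (A : Set G) : (mu m).real {p : Ultrafilter G | A ∈ p} = m.M (A.indicator 1) := by
  have hind : Bdd (A.indicator (1 : G → ℝ)) := by
    refine ⟨1, fun x => ?_⟩
    by_cases hx : x ∈ A <;> simp [hx]
  rw [← integral_ext m hind]
  have hm : MeasurableSet {p : Ultrafilter G | A ∈ p} := (ultrafilter_isOpen_basic A).measurableSet
  rw [← integral_indicator_one hm]
  congr 1
  funext p
  rw [ext_indicator]

end measure

end Pool.Agent.TH396.PS
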