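import Mathlib
import Pool.Agent.TH396.PS.Mean2

set_option autoImplicit false

open Filter Topology

namespace Pool.Agent.TH396.PS

universe u v

/-- total boundedness of a distance-like function, in terms of finite colourings -/
def TB {α : Type u} (d : α → α → ℝ) : Prop :=
  ∀ ε : ℝ, 0 < ε → ∃ (n : ℕ) (κ : α → Fin n), ∀ x y, κ x = κ y → d x y < ε

namespace TB

variable {α : Type u}

theorem of_finite {d : α → α → ℝ}
    (h : ∀ ε : ℝ, 0 < ε → ∃ (ι : Type v) (_ : Finite ι) (κ : α → ι), ∀ x y, κ x = κ y → d x y < ε) :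
    TB d := by
  intro ε hε
  obtain ⟨ι, hι, κ, hκ⟩ := h ε hε
  obtain ⟨n, ⟨e⟩⟩ := Finite.exists_equiv_fin ι
  exact ⟨n, fun x => e (κ x), fun x y hxy => hκ x y (e.injective hxy)⟩

theorem mono {d d' : α → α → ℝ} (hd : TB d) (C : ℝ) (hC : 0 ≤ C) (h : ∀ x y, d' x y ≤ C * d x y) :
    TB d' := by
  intro ε hε
  obtain ⟨n, κ, hκ⟩ := hd (ε / (C + 1)) (by positivity)
  refine ⟨n, κ, fun x y hxy => ?_⟩
  have h1 := hκ x y hxy
  rw [lt_div_iff₀ (by positivity)] at h1
  by_cases hd0 : 0 ≤ d x y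
  · calc d' x y ≤ C * d x y := h x y
      _ ≤ d x y * (C + 1) := by nlinarith
      _ < ε := h1
  · have : C * d x y ≤ 0 := mul_nonpos_of_nonneg_of_nonpos hC (not_le.mp hd0).le
    linarith [h x y]

theorem add {d d' : α → α → ℝ} (hd : TB d) (hd' : TB d') : TB (fun x y => d x y + d' x y) := by
  apply of_finite
  intro ε hε
  obtain ⟨n, κ, hκ⟩ := hd (ε / 2) (by positivity)
  obtain ⟨n', κ', hκ'⟩ := hd' (ε / 2) (by positivity)
  refine ⟨Fin n × Fin n', inferInstance, fun x => (κ x, κ' x), fun x y hxy => ?_⟩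
  have h1 := hκ x y (congrArg Prod.fst hxy)
  have h2 := hκ' x y (congrArg Prod.snd hxy)
  linarith

theorem comp {β : Type v} {d : α → α → ℝ} (hd : TB d) (σ : β → α) :
    TB (fun x y => d (σ x) (σ y)) := by
  intro ε hε
  obtain ⟨n, κ, hκ⟩ := hd ε hε
  exact ⟨n, fun x => κ (σ x), fun x y hxy => hκ _ _ hxy⟩

theorem sum {ι : Type*} (s : Finset ι) {d : ι → α → α → ℝ} (hd : ∀ i ∈ s, TB (d i)) :
    TB (fun x y => ∑ i ∈ s, d i x y) := by
  classical
  induction s using Finset.induction_on with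
  | empty =>
    intro ε hε
    exact ⟨1, fun _ => 0, fun x y _ => by simpa using hε⟩
  | insert a s ha ih =>
    simp only [Finset.sum_insert ha]
    exact (hd a (Finset.mem_insert_self _ _)).add
      (ih fun i hi => hd i (Finset.mem_insert_of_mem hi))

theorem approx {d : α → α → ℝ}
    (h : ∀ ε : ℝ, 0 < ε → ∃ d' : α → α → ℝ, TB d' ∧ ∀ x y, d x y ≤ d' x y + ε) : TB d := by
  intro ε hε
  obtain ⟨d', h1, h2⟩ := h (ε / 2) (by positivity)
  obtain ⟨n, κ, hκ⟩ := h1 (ε / 2) (by positivity)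
  refine ⟨n, κ, fun x y hxy => ?_⟩
  have := hκ x y hxy
  have := h2 x y
  linarith

theorem net {d : α → α → ℝ} (hd : TB d) (ε : ℝ) (hε : 0 < ε) :
    ∃ s : Finset α, ∀ x, ∃ c ∈ s, d x c < ε := by
  classical
  obtain ⟨n, κ, hκ⟩ := hd ε hε
  have hfin : (Set.range κ).Finite := Set.toFinite _
  choose g hg using fun i : Set.range κ => i.2
  refine ⟨(Finset.univ : Finset (Set.range κ)).image g, fun x => ?_⟩
  refine ⟨g ⟨κ x, x, rfl⟩, Finset.mem_image_of_mem _ (Finset.mem_univ _), ?_⟩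
  apply hκ
  exact (hg ⟨κ x, x, rfl⟩).symm

theorem of_totallyBounded {E : Type v} [PseudoMetricSpace E] {K : Set E} (hK : TotallyBounded K)
    (F : α → E) (hF : ∀ x, F x ∈ K) : TB (fun x y => dist (F x) (F y)) := by
  apply of_finite.{u, v}
  intro ε hε
  rw [Metric.totallyBounded_iff] at hK
  obtain ⟨t, htf, ht⟩ := hK (ε / 2) (by positivity)
  have h1 : ∀ x, ∃ y : t, dist (F x) y < ε / 2 := by
    intro x
    have := ht (hF x)
    simp only [Set.mem_iUnion, Metric.mem_ball] at this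
    obtain ⟨y, hy, hd⟩ := this
    exact ⟨⟨y, hy⟩, hd⟩
  choose κ hκ using h1
  refine ⟨t, htf, κ, fun x y hxy => ?_⟩
  calc dist (F x) (F y) ≤ dist (F x) (κ x) + dist (F y) (κ x) := dist_triangle_right _ _ _
    _ < ε / 2 + ε / 2 := add_lt_add (hκ x) (by rw [hxy]; exact hκ y)
    _ = ε := by ring

theorem of_bdd {f : α → ℝ} (hf : Bdd f) : TB (fun x y => |f x - f y|) := by
  obtain ⟨C, hC⟩ := hf
  have h := of_totallyBounded (K := Set.Icc (-C) C) (isCompact_Icc.totallyBounded) f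
    (fun x => abs_le.mp (hC x))
  simpa [Real.dist_eq] using h

end TB

end Pool.Agent.TH396.PS
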