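import Mathlib
import Pool.Agent.TH396.PS.TBd

set_option autoImplicit false

open Filter Topology

namespace Pool.Agent.TH396.PS

/-- a family of isometries indexed by a group, composing like the group or its opposite -/
structure Act (G : Type*) [Group G] (H : Type*) [NormedAddCommGroup H] [InnerProductSpace ℝ H] where
  U : G → H →ₗᵢ[ℝ] H
  mulc : G → G → G
  comp : ∀ b c x, U b (U c x) = U (mulc b c) x
  one : ∀ x, U 1 x = x
  hmul : (∀ b c, mulc b c = b * c) ∨ (∀ b c, mulc b c = c * b)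

namespace Act

variable {G : Type*} [Group G] {H : Type*} [NormedAddCommGroup H] [InnerProductSpace ℝ H]
variable (a : Act G H)

theorem inv_right (b : G) (x : H) : a.U b (a.U b⁻¹ x) = x := by
  rw [a.comp]
  rcases a.hmul with h | h
  · rw [h, mul_inv_cancel, a.one]
  · rw [h, inv_mul_cancel, a.one]

/-- vectors with totally bounded orbit -/
def cpt : Submodule ℝ H where
  carrier := {f | TB (fun b c => ‖a.U b f - a.U c f‖)}
  zero_mem' := by
    intro ε hε
    exact ⟨1, fun _ => 0, fun x y _ => by simpa using hε⟩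
  add_mem' := by
    intro f g hf hg
    have := hf.add hg
    refine this.mono 1 zero_le_one (fun x y => ?_)
    rw [map_add, map_add, one_mul]
    have : a.U x f + a.U x g - (a.U y f + a.U y g) = (a.U x f - a.U y f) + (a.U x g - a.U y g) := by
      abel
    rw [this]
    exact norm_add_le _ _
  smul_mem' := by
    intro c f hf
    refine hf.mono |c| (abs_nonneg c) (fun x y => ?_)
    rw [map_smul, map_smul, ← smul_sub, norm_smul, Real.norm_eq_abs]

theorem mem_cpt {f : H} : f ∈ a.cpt ↔ TB (fun b c => ‖a.U b f - a.U c f‖) := Iff.rfl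

theorem isClosed_cpt : IsClosed (a.cpt : Set H) := by
  rw [← isSeqClosed_iff_isClosed]
  intro u f hu hf
  show TB (fun b c => ‖a.U b f - a.U c f‖)
  apply TB.approx
  intro ε hε
  rw [Metric.tendsto_atTop] at hf
  obtain ⟨N, hN⟩ := hf (ε / 2) (by positivity)
  refine ⟨_, hu N, fun b c => ?_⟩
  have h1 := hN N le_rfl
  rw [dist_eq_norm] at h1
  have h2 : ‖a.U b f - a.U b (u N)‖ ≤ ε / 2 := by
    rw [← map_sub, (a.U b).norm_map, ← norm_neg, neg_sub]; exact h1.le
  have h3 : ‖a.U c (u N) - a.U c f‖ ≤ ε / 2 := by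
    rw [← map_sub, (a.U c).norm_map]; exact h1.le
  have h4 : a.U b f - a.U c f = (a.U b f - a.U b (u N)) + (a.U b (u N) - a.U c (u N)) +
    (a.U c (u N) - a.U c f) := by abel
  rw [h4]
  calc _ ≤ ‖a.U b f - a.U b (u N)‖ + ‖a.U b (u N) - a.U c (u N)‖ + ‖a.U c (u N) - a.U c f‖ :=
        norm_add₃_le
    _ ≤ _ := by linarith

theorem cpt_inv {f : H} (hf : f ∈ a.cpt) (c : G) : a.U c f ∈ a.cpt := by
  rw [mem_cpt] at hf ⊢
  have := hf.comp (fun b => a.mulc b c)
  simpa only [a.comp] using this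

theorem bdd_inner (u f : H) : Bdd (fun b => inner ℝ u (a.U b f)) := by
  refine ⟨‖u‖ * ‖f‖, fun b => ?_⟩
  have := abs_real_inner_le_norm u (a.U b f)
  rwa [(a.U b).norm_map] at this

variable [CompleteSpace H] (m : Mean G)

/-- the averaged rank one operator: defining functional -/
noncomputable def Bfun (f u : H) : H →L[ℝ] ℝ :=
  LinearMap.mkContinuous
    { toFun := fun v => m.M (fun b => inner ℝ u (a.U b f) * inner ℝ v (a.U b f))
      map_add' := by
        intro v w
        rw [← m.add' _ _ ((a.bdd_inner u f).mul (a.bdd_inner v f))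
          ((a.bdd_inner u f).mul (a.bdd_inner w f))]
        congr 1
        funext b
        rw [inner_add_left]; ring
      map_smul' := by
        intro c v
        rw [RingHom.id_apply, smul_eq_mul, ← m.smul' _ _ ((a.bdd_inner u f).mul (a.bdd_inner v f))]
        congr 1
        funext b
        rw [inner_smul_left]
        simp only [conj_trivial]
        ring }
    (‖u‖ * ‖f‖ * ‖f‖)
    (by
      intro v
      show ‖m.M (fun b => inner ℝ u (a.U b f) * inner ℝ v (a.U b f))‖ ≤ _
      rw [Real.norm_eq_abs]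
      apply m.bound
      intro b
      rw [abs_mul]
      have h1 := abs_real_inner_le_norm u (a.U b f)
      have h2 := abs_real_inner_le_norm v (a.U b f)
      rw [(a.U b).norm_map] at h1 h2
      calc |inner ℝ u (a.U b f)| * |inner ℝ v (a.U b f)| ≤ (‖u‖ * ‖f‖) * (‖v‖ * ‖f‖) :=
            mul_le_mul h1 h2 (abs_nonneg _) (by positivity)
        _ = ‖u‖ * ‖f‖ * ‖f‖ * ‖v‖ := by ring)

/-- the averaged rank one operator -/
noncomputable def Aop (f u : H) : H := (InnerProductSpace.toDual ℝ H).symm (a.Bfun m f u)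

theorem inner_Aop (f u v : H) :
    inner ℝ (a.Aop m f u) v = m.M (fun b => inner ℝ u (a.U b f) * inner ℝ v (a.U b f)) := by
  unfold Aop
  rw [InnerProductSpace.toDual_symm_apply]
  rfl

theorem Aop_add (f u v : H) : a.Aop m f (u + v) = a.Aop m f u + a.Aop m f v := by
  apply ext_inner_right ℝ
  intro w
  rw [inner_add_left, inner_Aop, inner_Aop, inner_Aop,
    ← m.add' _ _ ((a.bdd_inner u f).mul (a.bdd_inner w f))
          ((a.bdd_inner v f).mul (a.bdd_inner w f))]
  congr 1
  funext b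
  rw [inner_add_left]; ring

theorem Aop_sub (f u v : H) : a.Aop m f (u - v) = a.Aop m f u - a.Aop m f v := by
  have := a.Aop_add m f (u - v) v
  rw [sub_add_cancel] at this
  rw [this]; abel

theorem norm_Aop_le (f u : H) : ‖a.Aop m f u‖ ≤ ‖f‖ ^ 2 * ‖u‖ := by
  have h1 : ‖a.Aop m f u‖ ^ 2 ≤ (‖f‖ ^ 2 * ‖u‖) * ‖a.Aop m f u‖ := by
    rw [← real_inner_self_eq_norm_sq, inner_Aop]
    refine (le_abs_self _).trans (m.bound (fun b => ?_))
    rw [abs_mul]
    have h1 := abs_real_inner_le_norm u (a.U b f)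
    have h2 := abs_real_inner_le_norm (a.Aop m f u) (a.U b f)
    rw [(a.U b).norm_map] at h1 h2
    calc |inner ℝ u (a.U b f)| * |inner ℝ (a.Aop m f u) (a.U b f)|
          ≤ (‖u‖ * ‖f‖) * (‖a.Aop m f u‖ * ‖f‖) :=
          mul_le_mul h1 h2 (abs_nonneg _) (by positivity)
      _ = _ := by ring
  by_cases h0 : ‖a.Aop m f u‖ = 0
  · rw [h0]; positivity
  · have hpos : 0 < ‖a.Aop m f u‖ := lt_of_le_of_ne (norm_nonneg _) (Ne.symm h0)
    nlinarith

/-- key inequality: `‖A u‖² ≤ ‖f‖² ⟨A u, u⟩` -/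
theorem norm_sq_Aop_le (f u : H) :
    ‖a.Aop m f u‖ ^ 2 ≤ ‖f‖ ^ 2 * inner ℝ (a.Aop m f u) u := by
  by_cases hf : ‖f‖ = 0
  · have h := a.norm_Aop_le m f u
    rw [hf] at h ⊢
    have h0 : ‖a.Aop m f u‖ = 0 := le_antisymm (by simpa using h) (norm_nonneg _)
    rw [h0]; simp
  · have hfp : 0 < ‖f‖ := lt_of_le_of_ne (norm_nonneg _) (Ne.symm hf)
    have h1 : 2 * ‖a.Aop m f u‖ ^ 2 ≤ ‖f‖ ^ 2 * inner ℝ (a.Aop m f u) u + ‖a.Aop m f u‖ ^ 2 := by
      have e1 : ‖a.Aop m f u‖ ^ 2 =
          m.M (fun b => inner ℝ u (a.U b f) * inner ℝ (a.Aop m f u) (a.U b f)) := by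
        rw [← real_inner_self_eq_norm_sq, inner_Aop]
      have e2 : inner ℝ (a.Aop m f u) u =
          m.M (fun b => inner ℝ u (a.U b f) * inner ℝ u (a.U b f)) := inner_Aop a m f u u
      have hb1 := (a.bdd_inner u f).mul (a.bdd_inner (a.Aop m f u) f)
      have hb2 := (a.bdd_inner u f).mul (a.bdd_inner u f)
      have h3 : m.M (fun b => 2 * (inner ℝ u (a.U b f) * inner ℝ (a.Aop m f u) (a.U b f))) ≤
          m.M (fun b => ‖f‖ ^ 2 * (inner ℝ u (a.U b f) * inner ℝ u (a.U b f)) +
            ‖a.Aop m f u‖ ^ 2) := by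
        refine m.mono' _ _ (hb1.smul 2) ((hb2.smul _).add (Bdd.const _)) (fun b => ?_)
        have h2 := abs_real_inner_le_norm (a.Aop m f u) (a.U b f)
        rw [(a.U b).norm_map] at h2
        set p : ℝ := inner ℝ u (a.U b f) with hp
        set q : ℝ := inner ℝ (a.Aop m f u) (a.U b f) with hq
        have h4 : q ^ 2 ≤ (‖a.Aop m f u‖ * ‖f‖) ^ 2 := by
          rw [← sq_abs q]
          exact pow_le_pow_left₀ (abs_nonneg _) h2 2
        have h5 : 2 * (p * q) ≤ ‖f‖ ^ 2 * (p * p) + q ^ 2 / ‖f‖ ^ 2 := by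
          have h6 : 0 ≤ (‖f‖ * p - q / ‖f‖) ^ 2 := sq_nonneg _
          have h7 : (‖f‖ * p - q / ‖f‖) ^ 2 = ‖f‖ ^ 2 * (p * p) - 2 * (p * q) + q ^ 2 / ‖f‖ ^ 2 := by
            field_simp
            ring
          linarith
        have h8 : q ^ 2 / ‖f‖ ^ 2 ≤ ‖a.Aop m f u‖ ^ 2 := by
          rw [div_le_iff₀ (by positivity)]
          calc q ^ 2 ≤ _ := h4
            _ = _ := by ring
        linarith
      rw [m.smul' 2 _ hb1, m.add' _ _ (hb2.smul _) (Bdd.const _), m.smul' _ _ hb2, m.const',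
        ← e1, ← e2] at h3
      exact h3
    linarith

theorem exists_finite_approx (f : H) (ε : ℝ) (hε : 0 < ε) :
    ∃ s : Finset H, ∀ y : H, ‖y‖ = 1 → (∀ x ∈ s, inner ℝ x y = 0) → ‖a.Aop m f y‖ ≤ ε := by
  by_contra hcon
  push Not at hcon
  obtain ⟨e, he1, he2⟩ := exists_seq_of_forall_finset_exists
    (fun y : H => ‖y‖ = 1 ∧ ε < ‖a.Aop m f y‖) (fun x y => inner ℝ x y = 0)
    (fun s _ => by
      obtain ⟨y, h1, h2, h3⟩ := hcon s
      exact ⟨y, ⟨h1, h3⟩, h2⟩)
  have hon : Orthonormal ℝ e := by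
    refine ⟨fun n => (he1 n).1, ?_⟩
    intro i j hij
    rcases lt_or_gt_of_ne hij with h | h
    · exact he2 i j h
    · show inner ℝ (e i) (e j) = 0
      rw [real_inner_comm]
      exact he2 j i h
  -- sum bound
  have hsum : ∀ n : ℕ, ∑ i ∈ Finset.range n, inner ℝ (a.Aop m f (e i)) (e i) ≤ ‖f‖ ^ 2 := by
    intro n
    have h1 : ∑ i ∈ Finset.range n, inner ℝ (a.Aop m f (e i)) (e i) =
        m.M (fun b => ∑ i ∈ Finset.range n, inner ℝ (e i) (a.U b f) * inner ℝ (e i) (a.U b f)) := by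
      rw [m.sum _ (fun i _ => (a.bdd_inner (e i) f).mul (a.bdd_inner (e i) f))]
      exact Finset.sum_congr rfl (fun i _ => inner_Aop a m f (e i) (e i))
    rw [h1, ← m.const' (‖f‖ ^ 2)]
    refine m.mono' _ _ (Bdd.sum _ fun i _ => (a.bdd_inner (e i) f).mul (a.bdd_inner (e i) f))
      (Bdd.const _) (fun b => ?_)
    have := hon.sum_inner_products_le (x := a.U b f) (s := Finset.range n)
    rw [(a.U b).norm_map] at this
    refine le_trans (le_of_eq ?_) this
    refine Finset.sum_congr rfl (fun i _ => ?_)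
    rw [Real.norm_eq_abs, sq_abs]; ring
  have hlow : ∀ i, ε ^ 2 ≤ ‖f‖ ^ 2 * inner ℝ (a.Aop m f (e i)) (e i) := by
    intro i
    refine le_trans ?_ (a.norm_sq_Aop_le m f (e i))
    exact pow_le_pow_left₀ hε.le (he1 i).2.le 2
  obtain ⟨n, hn⟩ := exists_nat_gt (‖f‖ ^ 2 * ‖f‖ ^ 2 / ε ^ 2)
  rw [div_lt_iff₀ (by positivity)] at hn
  have h2 : ∑ i ∈ Finset.range n, ε ^ 2 ≤
      ∑ i ∈ Finset.range n, ‖f‖ ^ 2 * inner ℝ (a.Aop m f (e i)) (e i) :=
    Finset.sum_le_sum fun i _ => hlow i
  rw [Finset.sum_const, Finset.card_range, nsmul_eq_mul, ← Finset.mul_sum] at h2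
  have h3 := mul_le_mul_of_nonneg_left (hsum n) (sq_nonneg ‖f‖)
  linarith

theorem TB_Aop (f : H) (y : G → H) (R : ℝ) (hy : ∀ c, ‖y c‖ ≤ R) :
    TB (fun b c => ‖a.Aop m f (y b) - a.Aop m f (y c)‖) := by
  apply TB.approx
  intro ε hε
  have hR : 0 ≤ R := (norm_nonneg _).trans (hy 1)
  obtain ⟨s, hs⟩ := a.exists_finite_approx m f (ε / (2 * R + 1)) (by positivity)
  set E : Submodule ℝ H := Submodule.span ℝ (s : Set H) with hE
  have : FiniteDimensional ℝ E := FiniteDimensional.span_finset ℝ s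
  have hs' : ∀ z ∈ Eᗮ, ‖a.Aop m f z‖ ≤ ε / (2 * R + 1) * ‖z‖ := by
    intro z hz
    by_cases h0 : ‖z‖ = 0
    · have : z = 0 := norm_eq_zero.mp h0
      have h := a.norm_Aop_le m f z
      rw [h0] at h ⊢
      simpa using h
    · have hzp : 0 < ‖z‖ := lt_of_le_of_ne (norm_nonneg _) (Ne.symm h0)
      have h1 := hs (‖z‖⁻¹ • z) (by rw [norm_smul, norm_inv, norm_norm, inv_mul_cancel₀ h0]) (by
        intro x hx
        rw [inner_smul_right]
        have : inner ℝ x z = 0 := (Submodule.mem_orthogonal E z).mp hz x (Submodule.subset_span hx)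
        rw [this, mul_zero])
      have h2 : a.Aop m f (‖z‖⁻¹ • z) = ‖z‖⁻¹ • a.Aop m f z := by
        apply ext_inner_right ℝ
        intro w
        rw [inner_smul_left, inner_Aop, inner_Aop]
        simp only [conj_trivial]
        rw [← m.smul' _ _ ((a.bdd_inner z f).mul (a.bdd_inner w f))]
        congr 1
        funext b
        rw [inner_smul_left]
        simp only [conj_trivial]
        ring
      rw [h2, norm_smul, norm_inv, norm_norm, inv_mul_le_iff₀ hzp] at h1
      linarith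
  -- compactness on the finite dimensional part
  have hcont : Continuous (fun v : E => a.Aop m f (v : H)) := by
    have hL : LipschitzWith (Real.toNNReal (‖f‖ ^ 2)) (fun v : E => a.Aop m f (v : H)) := by
      apply LipschitzWith.of_dist_le_mul
      intro v w
      rw [dist_eq_norm, ← a.Aop_sub, Real.coe_toNNReal _ (sq_nonneg _)]
      refine (a.norm_Aop_le m f _).trans (le_of_eq ?_)
      rw [← Submodule.coe_sub, dist_eq_norm]
      rfl
    exact hL.continuous
  have hK : TotallyBounded ((fun v : E => a.Aop m f (v : H)) '' Metric.closedBall 0 R) :=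
    ((isCompact_closedBall (0 : E) R).image hcont).totallyBounded
  have hTB := TB.of_totallyBounded hK (fun b => a.Aop m f (E.orthogonalProjectionOnto (y b) : E)) (by
    intro b
    refine ⟨E.orthogonalProjectionOnto (y b), ?_, rfl⟩
    rw [Metric.mem_closedBall, dist_zero_right]
    exact (E.norm_orthogonalProjectionOnto_apply_le (y b)).trans (hy b))
  refine ⟨_, hTB, fun b c => ?_⟩
  have hpart : ∀ b, ‖a.Aop m f (y b) - a.Aop m f (E.orthogonalProjectionOnto (y b) : E)‖ ≤ ε / 2 := by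
    intro b
    rw [← a.Aop_sub]
    have h1 : y b - (E.orthogonalProjectionOnto (y b) : E) ∈ Eᗮ := by
      have := Submodule.sub_starProjection_mem_orthogonal (K := E) (y b)
      rwa [Submodule.starProjection_apply] at this
    have h2 := hs' _ h1
    have h3 : ‖y b - (E.orthogonalProjectionOnto (y b) : E)‖ ≤ R := by
      have h5 : ‖y b‖ ^ 2 = ‖((E.orthogonalProjectionOnto (y b) : E) : H)‖ ^ 2 +
          ‖y b - (E.orthogonalProjectionOnto (y b) : E)‖ ^ 2 := by
        have h6 : inner ℝ ((E.orthogonalProjectionOnto (y b) : E) : H)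
            (y b - (E.orthogonalProjectionOnto (y b) : E)) = 0 :=
          (Submodule.mem_orthogonal E _).mp h1 _ (Submodule.coe_mem _)
        have h7 := norm_add_sq_real ((E.orthogonalProjectionOnto (y b) : E) : H)
            (y b - (E.orthogonalProjectionOnto (y b) : E))
        rw [h6] at h7
        have h8 : ((E.orthogonalProjectionOnto (y b) : E) : H) +
            (y b - (E.orthogonalProjectionOnto (y b) : E)) = y b := by abel
        rw [h8] at h7
        linarith
      have h9 : ‖y b - (E.orthogonalProjectionOnto (y b) : E)‖ ^ 2 ≤ ‖y b‖ ^ 2 := by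
        rw [h5]; nlinarith [sq_nonneg ‖((E.orthogonalProjectionOnto (y b) : E) : H)‖]
      exact (pow_le_pow_iff_left₀ (norm_nonneg _) (norm_nonneg _) two_ne_zero).mp h9 |>.trans (hy b)
    calc _ ≤ ε / (2 * R + 1) * ‖y b - (E.orthogonalProjectionOnto (y b) : E)‖ := h2
      _ ≤ ε / (2 * R + 1) * R := mul_le_mul_of_nonneg_left h3 (by positivity)
      _ ≤ ε / 2 := by
        rw [div_mul_eq_mul_div, div_le_div_iff₀ (by positivity) (by positivity)]
        nlinarith
  have h4 : a.Aop m f (y b) - a.Aop m f (y c) =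
      (a.Aop m f (y b) - a.Aop m f (E.orthogonalProjectionOnto (y b) : E)) +
      (a.Aop m f (E.orthogonalProjectionOnto (y b) : E) -
        a.Aop m f (E.orthogonalProjectionOnto (y c) : E)) +
      (a.Aop m f (E.orthogonalProjectionOnto (y c) : E) - a.Aop m f (y c)) := by abel
  rw [h4]
  refine norm_add₃_le.trans ?_
  have h5 := hpart b
  have h6 := hpart c
  rw [← norm_neg, neg_sub] at h6
  rw [dist_eq_norm]
  linarith

/-- the averaged operator commutes with the action -/
theorem Aop_comm (f u : H) (c : G) : a.Aop m f (a.U c u) = a.U c (a.Aop m f u) := by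
  apply ext_inner_right ℝ
  intro v
  obtain ⟨v', rfl⟩ : ∃ v', v = a.U c v' := ⟨a.U c⁻¹ v, (a.inv_right c v).symm⟩
  rw [LinearIsometry.inner_map_map, inner_Aop, inner_Aop]
  have hb := (a.bdd_inner (a.U c u) f).mul (a.bdd_inner (a.U c v') f)
  have hinv : m.M (fun b => inner ℝ (a.U c u) (a.U (a.mulc c b) f) *
      inner ℝ (a.U c v') (a.U (a.mulc c b) f)) =
      m.M (fun b => inner ℝ (a.U c u) (a.U b f) * inner ℝ (a.U c v') (a.U b f)) := by
    rcases a.hmul with h | h
    · simp only [h]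
      exact m.left' c _ hb
    · simp only [h]
      exact m.right' c _ hb
  rw [← hinv]
  congr 1
  funext b
  rw [← a.comp, LinearIsometry.inner_map_map, LinearIsometry.inner_map_map]

theorem Aop_mem_cpt (f u : H) : a.Aop m f u ∈ a.cpt := by
  rw [mem_cpt]
  simp only [← Aop_comm]
  exact a.TB_Aop m f (fun b => a.U b u) ‖u‖ (fun c => by rw [(a.U c).norm_map])

theorem wm_sq (f : H) (hf : ∀ g ∈ a.cpt, inner ℝ g f = 0) (u : H) :
    m.M (fun b => inner ℝ u (a.U b f) * inner ℝ u (a.U b f)) = 0 := by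
  have h1 : ∀ g ∈ a.cpt, ∀ b, inner ℝ g (a.U b f) = 0 := by
    intro g hg b
    rw [← a.inv_right b g, LinearIsometry.inner_map_map]
    exact hf _ (a.cpt_inv hg _)
  have h2 : a.Aop m f u = 0 := by
    have : inner ℝ (a.Aop m f u) (a.Aop m f u) = (0 : ℝ) := by
      rw [inner_Aop]
      have : (fun b => inner ℝ u (a.U b f) * inner ℝ (a.Aop m f u) (a.U b f)) =
          fun _ : G => (0 : ℝ) := by
        funext b
        rw [h1 _ (a.Aop_mem_cpt m f u) b, mul_zero]
      rw [this, m.const']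
    exact inner_self_eq_zero.mp this
  rw [← inner_Aop, h2, inner_zero_left]

theorem wm_abs (f : H) (hf : ∀ g ∈ a.cpt, inner ℝ g f = 0) (u : H) :
    m.M (fun b => |inner ℝ u (a.U b f)|) = 0 := by
  have hb := a.bdd_inner u f
  apply le_antisymm
  · apply le_of_forall_pos_le_add
    intro ε hε
    rw [zero_add]
    have h1 : m.M (fun b => |inner ℝ u (a.U b f)|) ≤
        m.M (fun b => ε + (1 / ε) * (inner ℝ u (a.U b f) * inner ℝ u (a.U b f))) := by
      refine m.mono' _ _ hb.abs ((Bdd.const _).add ((hb.mul hb).smul _)) (fun b => ?_)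
      set p : ℝ := inner ℝ u (a.U b f)
      have h2 : 0 ≤ (|p| - ε) ^ 2 + |p| * ε := by positivity
      have h3 : ε + 1 / ε * (p * p) - |p| = ((|p| - ε) ^ 2 + |p| * ε) / ε := by
        have : p * p = |p| ^ 2 := by rw [sq_abs]; ring
        rw [this]
        field_simp
        ring
      have h4 : 0 ≤ ((|p| - ε) ^ 2 + |p| * ε) / ε := div_nonneg h2 hε.le
      linarith
    rw [m.add' _ _ (Bdd.const _) ((hb.mul hb).smul _), m.smul' _ _ (hb.mul hb), m.const',
      a.wm_sq m f hf u, mul_zero, add_zero] at h1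
    exact h1
  · exact m.nonneg hb.abs (fun b => abs_nonneg _)

end Act

end Pool.Agent.TH396.PS
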