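import Mathlib
import Pool.Agent.TH396.PS.Hilb

set_option autoImplicit false

open Filter Topology MeasureTheory

namespace Pool.Agent.TH396.PS

/-- bounded measurable function -/
structure BM {X : Type*} [MeasurableSpace X] (F : X → ℝ) : Prop where
  meas : Measurable F
  bdd : Bdd F

section L2

variable {X : Type*} [MeasurableSpace X]

namespace BM

theorem memLp {F : X → ℝ} (h : BM F) (μ : Measure X) [IsProbabilityMeasure μ] : MemLp F 2 μ := by
  obtain ⟨C, hC⟩ := h.bdd
  exact MemLp.of_bound h.meas.aestronglyMeasurable C (Eventually.of_forall fun x => by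
    rw [Real.norm_eq_abs]; exact hC x)

theorem integrable {F : X → ℝ} (h : BM F) (μ : Measure X) [IsProbabilityMeasure μ] :
    Integrable F μ := by
  obtain ⟨C, hC⟩ := h.bdd
  exact Integrable.of_bound h.meas.aestronglyMeasurable C (Eventually.of_forall fun x => by
    rw [Real.norm_eq_abs]; exact hC x)

theorem mul {F F' : X → ℝ} (h : BM F) (h' : BM F') : BM (fun x => F x * F' x) :=
  ⟨h.meas.mul h'.meas, h.bdd.mul h'.bdd⟩

theorem add {F F' : X → ℝ} (h : BM F) (h' : BM F') : BM (fun x => F x + F' x) :=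
  ⟨h.meas.add h'.meas, h.bdd.add h'.bdd⟩

theorem sub {F F' : X → ℝ} (h : BM F) (h' : BM F') : BM (fun x => F x - F' x) :=
  ⟨h.meas.sub h'.meas, h.bdd.sub h'.bdd⟩

theorem comp {F : X → ℝ} (h : BM F) {e : X → X} (he : Measurable e) : BM (fun x => F (e x)) :=
  ⟨h.meas.comp he, h.bdd.comp e⟩

theorem const (c : ℝ) : BM (fun _ : X => c) := ⟨measurable_const, Bdd.const c⟩

theorem ind {C : Set X} (hC : MeasurableSet C) : BM (C.indicator (1 : X → ℝ)) := by
  refine ⟨measurable_const.indicator hC, 1, fun x => ?_⟩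
  by_cases hx : x ∈ C <;> simp [hx]

end BM

set_option linter.unusedSectionVars false

variable (μ : Measure X) [IsProbabilityMeasure μ]

/-- the class in `L²` of a bounded measurable function -/
noncomputable def toL {F : X → ℝ} (h : BM F) : Lp ℝ 2 μ := (h.memLp μ).toLp F

theorem coeFn_toL {F : X → ℝ} (h : BM F) : toL μ h =ᵐ[μ] F := MemLp.coeFn_toLp _

theorem inner_toL {F F' : X → ℝ} (h : BM F) (h' : BM F') :
    inner ℝ (toL μ h) (toL μ h') = ∫ x, F x * F' x ∂μ := by
  rw [L2.inner_def]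
  apply integral_congr_ae
  filter_upwards [coeFn_toL μ h, coeFn_toL μ h'] with x h1 h2
  rw [h1, h2]
  simp [mul_comm]

theorem norm_toL_le {F : X → ℝ} (h : BM F) {C : ℝ} (hC : ∀ x, |F x| ≤ C) (hC0 : 0 ≤ C) :
    ‖toL μ h‖ ≤ C := by
  have h1 : ‖toL μ h‖ ^ 2 ≤ C ^ 2 := by
    rw [← real_inner_self_eq_norm_sq, inner_toL]
    calc ∫ x, F x * F x ∂μ ≤ ∫ x, C ^ 2 ∂μ := by
          apply integral_mono ((h.mul h).integrable μ) (integrable_const _)
          intro x
          have := hC x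
          show F x * F x ≤ C ^ 2
          calc F x * F x = |F x| ^ 2 := by rw [sq_abs]; ring
            _ ≤ C ^ 2 := pow_le_pow_left₀ (abs_nonneg _) this 2
      _ = C ^ 2 := by simp
  exact (pow_le_pow_iff_left₀ (norm_nonneg _) hC0 two_ne_zero).mp h1

theorem toL_sub {F F' : X → ℝ} (h : BM F) (h' : BM F') :
    toL μ h - toL μ h' = toL μ (h.sub h') := rfl

theorem toL_add {F F' : X → ℝ} (h : BM F) (h' : BM F') :
    toL μ h + toL μ h' = toL μ (h.add h') := rfl

/-- projection onto a closed subspace stable under positive part preserves positivity -/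
theorem proj_pos (K : Submodule ℝ (Lp ℝ 2 μ)) [K.HasOrthogonalProjection]
    (hK : ∀ f ∈ K, Lp.posPart f ∈ K) (g : Lp ℝ 2 μ) (hg : Lp.posPart g = g) :
    Lp.posPart (K.starProjection g) = K.starProjection g := by
  set q := K.starProjection g with hq
  have hqK : q ∈ K := by
    rw [hq]
    exact (K.orthogonalProjectionOnto g).2
  have hqp : Lp.posPart q ∈ K := hK q hqK
  have h1 : ‖g - Lp.posPart q‖ ≤ ‖g - q‖ := by
    have h := Lp.lipschitzWith_pos_part.norm_compLp_sub_le (max_eq_right le_rfl) g q (p := 2) (μ := μ)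
    have h2 : ‖Lp.posPart g - Lp.posPart q‖ ≤ (1 : NNReal) * ‖g - q‖ := h
    rw [hg] at h2
    simpa using h2
  have h2 : ‖g - Lp.posPart q‖ ^ 2 = ‖g - q‖ ^ 2 + ‖q - Lp.posPart q‖ ^ 2 := by
    have h3 : inner ℝ (g - q) (q - Lp.posPart q) = 0 :=
      K.starProjection_inner_eq_zero g _ (K.sub_mem hqK hqp)
    have h4 := norm_add_sq_real (g - q) (q - Lp.posPart q)
    rw [h3] at h4
    have h5 : g - q + (q - Lp.posPart q) = g - Lp.posPart q := by abel
    rw [h5] at h4
    linarith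
  have h3 : ‖g - Lp.posPart q‖ ^ 2 ≤ ‖g - q‖ ^ 2 := pow_le_pow_left₀ (norm_nonneg _) h1 2
  have h4 : ‖q - Lp.posPart q‖ ^ 2 ≤ 0 := by linarith
  have h5 : ‖q - Lp.posPart q‖ = 0 := by
    have := sq_nonneg ‖q - Lp.posPart q‖
    exact pow_eq_zero_iff two_ne_zero |>.mp (le_antisymm h4 this)
  exact (sub_eq_zero.mp (norm_eq_zero.mp h5)).symm

theorem posPart_eq_of_nonneg (f : Lp ℝ 2 μ) (h : 0 ≤ᵐ[μ] f) : Lp.posPart f = f := by
  apply Lp.ext
  filter_upwards [Lp.coeFn_posPart f, h] with x h1 h2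
  rw [h1]
  exact max_eq_left h2

theorem nonneg_of_posPart_eq (f : Lp ℝ 2 μ) (h : Lp.posPart f = f) : 0 ≤ᵐ[μ] f := by
  have h1 := Lp.coeFn_posPart f
  rw [h] at h1
  filter_upwards [h1] with x hx
  rw [hx]
  exact le_max_right _ _

end L2

/-- measure preserving action up to order -/
structure MPAct (G : Type*) [Group G] {X : Type*} [MeasurableSpace X] (μ : Measure X) where
  τ : G → X → X
  mp : ∀ b, MeasurePreserving (τ b) μ μ
  mulc : G → G → G
  comp : ∀ b c, τ c ∘ τ b = τ (mulc b c)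
  one : τ 1 = id
  hmul : (∀ b c, mulc b c = b * c) ∨ (∀ b c, mulc b c = c * b)

namespace MPAct

variable {G : Type*} [Group G] {X : Type*} [MeasurableSpace X] {μ : Measure X}
  [IsProbabilityMeasure μ]

/-- the Koopman action -/
noncomputable def act (t : MPAct G μ) : Act G (Lp ℝ 2 μ) where
  U b := Lp.compMeasurePreservingₗᵢ ℝ (t.τ b) (t.mp b)
  mulc := t.mulc
  comp b c x := by
    show Lp.compMeasurePreserving (t.τ b) (t.mp b) (Lp.compMeasurePreserving (t.τ c) (t.mp c) x) =
      Lp.compMeasurePreserving (t.τ (t.mulc b c)) (t.mp _) x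
    rw [← Lp.compMeasurePreserving_comp_apply x (t.mp c) (t.mp b)]
    congr 2
    exact t.comp b c
  one x := by
    show Lp.compMeasurePreserving (t.τ 1) (t.mp 1) x = x
    have : ∀ (e : X → X) (he : MeasurePreserving e μ μ), e = id →
        Lp.compMeasurePreserving e he x = x := by
      rintro e he rfl
      exact Lp.compMeasurePreserving_id_apply x
    exact this _ _ t.one
  hmul := t.hmul

theorem coeFn_U (t : MPAct G μ) (b : G) (f : Lp ℝ 2 μ) :
    (t.act.U b f : X → ℝ) =ᵐ[μ] f ∘ t.τ b :=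
  Lp.coeFn_compMeasurePreserving f (t.mp b)

theorem U_toL (t : MPAct G μ) (b : G) {F : X → ℝ} (h : BM F) :
    t.act.U b (toL μ h) = toL μ (h.comp (t.mp b).measurable) := rfl

theorem U_posPart (t : MPAct G μ) (b : G) (f : Lp ℝ 2 μ) :
    t.act.U b (Lp.posPart f) = Lp.posPart (t.act.U b f) := by
  apply Lp.ext
  have h1 := t.coeFn_U b (Lp.posPart f)
  have h2 := Lp.coeFn_posPart (t.act.U b f)
  have h3 := t.coeFn_U b f
  have h4 := (t.mp b).quasiMeasurePreserving.ae_eq_comp (Lp.coeFn_posPart f)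
  filter_upwards [h1, h2, h3, h4] with x h1 h2 h3 h4
  rw [h1, h2, h3]
  exact h4

theorem posPart_mem (t : MPAct G μ) (f : Lp ℝ 2 μ) (hf : f ∈ t.act.cpt) :
    Lp.posPart f ∈ t.act.cpt := by
  rw [Act.mem_cpt] at hf ⊢
  refine hf.mono 1 zero_le_one (fun b c => ?_)
  rw [t.U_posPart, t.U_posPart]
  exact Lp.lipschitzWith_pos_part.norm_compLp_sub_le (max_eq_right le_rfl) _ _

theorem one_mem (t : MPAct G μ) : toL μ (BM.const (1 : ℝ)) ∈ t.act.cpt := by
  rw [Act.mem_cpt]
  intro ε hε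
  refine ⟨1, fun _ => 0, fun x y _ => ?_⟩
  have : ∀ b, t.act.U b (toL μ (BM.const (1 : ℝ))) = toL μ (BM.const (1 : ℝ)) := fun b => rfl
  beta_reduce
  rw [this x, this y, sub_self, norm_zero]
  exact hε

/-- structure theorem: compact part of an indicator -/
theorem compact_part (t : MPAct G μ) (m : Mean G) (C : Set X) (hC : MeasurableSet C) :
    ∃ (q : X → ℝ) (hq : BM q), (∀ x, 0 ≤ q x ∧ q x ≤ 1) ∧ (∫ x, q x ∂μ = μ.real C) ∧
      toL μ hq ∈ t.act.cpt ∧
      (∀ (φ : X → ℝ), BM φ →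
        m.M (fun b => |∫ x, φ x * (C.indicator 1 (t.τ b x) - q (t.τ b x)) ∂μ|) = 0) := by
  set K := t.act.cpt with hK
  have hcl : IsClosed (K : Set (Lp ℝ 2 μ)) := t.act.isClosed_cpt
  have : CompleteSpace K := hcl.completeSpace_coe
  set g := toL μ (BM.ind hC) with hg
  set q0 := K.starProjection g with hq0
  have hq0K : q0 ∈ K := (K.orthogonalProjectionOnto g).2
  have hgpos : 0 ≤ᵐ[μ] g := by
    filter_upwards [coeFn_toL μ (BM.ind hC)] with x hx
    rw [hg, hx]
    exact Set.indicator_nonneg (fun _ _ => zero_le_one) _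
  have hpos : 0 ≤ᵐ[μ] q0 := nonneg_of_posPart_eq μ _
    (proj_pos μ K (fun f hf => t.posPart_mem f hf) g (posPart_eq_of_nonneg μ g hgpos))
  set o := toL μ (BM.const (X := X) (1 : ℝ)) with ho
  have hoK : o ∈ K := t.one_mem
  have hPo : K.starProjection o = o := Submodule.starProjection_eq_self_iff.mpr hoK
  have hle : 0 ≤ᵐ[μ] (o - q0 : Lp ℝ 2 μ) := by
    have h1 : K.starProjection (o - g) = o - q0 := by rw [map_sub, hPo]
    have h2 : 0 ≤ᵐ[μ] (o - g : Lp ℝ 2 μ) := by
      filter_upwards [coeFn_toL μ (BM.ind hC), coeFn_toL μ (BM.const (X := X) (1 : ℝ)),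
        Lp.coeFn_sub o g] with x h1 h2 h3
      rw [h3, Pi.sub_apply, hg, ho, h1, h2]
      by_cases hx : x ∈ C <;> simp [hx]
    rw [← h1]
    exact nonneg_of_posPart_eq μ _
      (proj_pos μ K (fun f hf => t.posPart_mem f hf) _ (posPart_eq_of_nonneg μ _ h2))
  -- measurable representative
  have hsm : StronglyMeasurable (q0 : X → ℝ) := Lp.stronglyMeasurable q0
  set q : X → ℝ := fun x => max 0 (min 1 ((q0 : X → ℝ) x)) with hqdef
  have hq01 : ∀ x, 0 ≤ q x ∧ q x ≤ 1 := fun x =>
    ⟨le_max_left _ _, max_le zero_le_one (min_le_left _ _)⟩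
  have hqBM : BM q := by
    refine ⟨?_, Bdd.of_mem 0 1 hq01⟩
    exact measurable_const.max (measurable_const.min hsm.measurable)
  have hqeq : toL μ hqBM = q0 := by
    apply Lp.ext
    filter_upwards [coeFn_toL μ hqBM, hpos, hle, Lp.coeFn_sub o q0,
      coeFn_toL μ (BM.const (X := X) (1 : ℝ))] with x h1 h2 h3 h4 h5
    rw [h1]
    rw [h4, Pi.sub_apply, ho, h5] at h3
    simp only [Pi.zero_apply] at h2 h3
    show max 0 (min 1 (q0 x)) = q0 x
    rw [min_eq_right (by linarith), max_eq_right h2]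
  refine ⟨q, hqBM, hq01, ?_, ?_, ?_⟩
  · -- integral
    have h1 : inner ℝ o q0 = inner ℝ o g := by
      have h2 : inner ℝ (g - q0) o = 0 := K.starProjection_inner_eq_zero g o hoK
      rw [inner_sub_left, sub_eq_zero] at h2
      rw [real_inner_comm, ← h2, real_inner_comm]
    rw [← hqeq, ho, inner_toL, hg, inner_toL] at h1
    simp only [one_mul] at h1
    rw [h1, ← integral_indicator_one hC]
  · rw [hqeq]; exact hq0K
  · intro φ hφ
    have hf : ∀ k ∈ K, inner ℝ k (g - q0) = 0 := by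
      intro k hk
      rw [real_inner_comm]
      exact K.starProjection_inner_eq_zero g k hk
    have h1 := t.act.wm_abs m (g - q0) hf (toL μ hφ)
    rw [← h1]
    congr 1
    funext b
    congr 1
    rw [← hqeq, hg, toL_sub, t.U_toL, inner_toL]

end MPAct

end Pool.Agent.TH396.PS
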