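import Mathlib
import Pool.Agent.TH396.PS.Hilb

set_option autoImplicit false

open Filter Topology

namespace Pool.Agent.TH396.PS

/-- bi-invariant totally bounded pseudometric on a group -/
structure BIM (G : Type*) [Group G] where
  d : G → G → ℝ
  self : ∀ x, d x x = 0
  symm : ∀ x y, d x y = d y x
  tri : ∀ x y z, d x z ≤ d x y + d y z
  left : ∀ a x y, d (a * x) (a * y) = d x y
  right : ∀ a x y, d (x * a) (y * a) = d x y
  tb : TB d

namespace BIM

variable {G : Type*} [Group G]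

theorem nonneg (D : BIM G) (x y : G) : 0 ≤ D.d x y := by
  have h1 := D.tri x y x
  rw [D.self, D.symm y x] at h1
  linarith

/-- sum of two such metrics -/
def add (D D' : BIM G) : BIM G where
  d x y := D.d x y + D'.d x y
  self x := by rw [D.self, D'.self, add_zero]
  symm x y := by rw [D.symm, D'.symm]
  tri x y z := by linarith [D.tri x y z, D'.tri x y z]
  left a x y := by rw [D.left, D'.left]
  right a x y := by rw [D.right, D'.right]
  tb := D.tb.add D'.tb

theorem inv (D : BIM G) (x y : G) : D.d x⁻¹ y⁻¹ = D.d x y := by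
  have h1 := D.left x x⁻¹ y⁻¹
  have h2 := D.right y (x * x⁻¹) (x * y⁻¹)
  rw [← h1, ← h2]
  simp [D.symm]

theorem d_one_mul (D : BIM G) (x y : G) : D.d 1 (x⁻¹ * y) = D.d x y := by
  have h1 := D.left x 1 (x⁻¹ * y)
  rw [← h1]
  simp

theorem d_one_inv (D : BIM G) (x : G) : D.d 1 x⁻¹ = D.d 1 x := by
  have := D.inv 1 x
  simpa using this

theorem d_one_comm (D : BIM G) (x y : G) : D.d 1 (x * y) = D.d 1 (y * x) := by
  have h1 := D.left x⁻¹ 1 (x * y)
  have h2 := D.right x⁻¹ 1 (y * x)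
  rw [← h1, ← h2]
  simp

theorem d_sq (D : BIM G) (x y : G) : D.d (x * x) (y * y) ≤ 2 * D.d x y := by
  have h1 := D.tri (x * x) (x * y) (y * y)
  rw [D.left, D.right] at h1
  linarith

end BIM

namespace Act

variable {G : Type*} [Group G] {H : Type*} [NormedAddCommGroup H] [InnerProductSpace ℝ H]
variable (a : Act G H)

theorem orb_bdd (q : H) (b b' : G) :
    BddAbove (Set.range fun c => ‖a.U b (a.U c q) - a.U b' (a.U c q)‖) := by
  refine ⟨‖q‖ + ‖q‖, ?_⟩
  rintro _ ⟨c, rfl⟩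
  refine (norm_sub_le _ _).trans ?_
  rw [(a.U b).norm_map, (a.U b').norm_map, (a.U c).norm_map]

/-- the orbit metric -/
noncomputable def dist (q : H) (b b' : G) : ℝ := ⨆ c, ‖a.U b (a.U c q) - a.U b' (a.U c q)‖

theorem le_dist (q : H) (b b' c : G) : ‖a.U b (a.U c q) - a.U b' (a.U c q)‖ ≤ a.dist q b b' :=
  le_ciSup (a.orb_bdd q b b') c

theorem le_dist' (q : H) (b b' : G) : ‖a.U b q - a.U b' q‖ ≤ a.dist q b b' := by
  have := a.le_dist q b b' 1
  rwa [a.one] at this

theorem dist_le (q : H) (b b' : G) (C : ℝ)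
    (h : ∀ c, ‖a.U b (a.U c q) - a.U b' (a.U c q)‖ ≤ C) : a.dist q b b' ≤ C :=
  ciSup_le h

/-- the orbit metric of a vector with totally bounded orbit -/
noncomputable def bim (q : H) (hq : q ∈ a.cpt) : BIM G where
  d := a.dist q
  self x := by simp [dist]
  symm x y := by
    unfold dist
    congr 1
    funext c
    exact norm_sub_rev _ _
  tri x y z := by
    apply a.dist_le
    intro c
    calc ‖a.U x (a.U c q) - a.U z (a.U c q)‖
        ≤ ‖a.U x (a.U c q) - a.U y (a.U c q)‖ + ‖a.U y (a.U c q) - a.U z (a.U c q)‖ :=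
          norm_sub_le_norm_sub_add_norm_sub _ _ _
      _ ≤ _ := add_le_add (a.le_dist q x y c) (a.le_dist q y z c)
  left g x y := by
    rcases a.hmul with h | h
    · unfold dist
      congr 1
      funext c
      rw [← h g x, ← h g y, ← a.comp, ← a.comp, ← map_sub, (a.U g).norm_map]
    · unfold dist
      have h1 : ∀ c, ‖a.U (g * x) (a.U c q) - a.U (g * y) (a.U c q)‖ =
          (fun c => ‖a.U x (a.U c q) - a.U y (a.U c q)‖) ((Equiv.mulRight g) c) := by
        intro c
        rw [← h x g, ← h y g, ← a.comp, ← a.comp, a.comp g c, h g c]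
        rfl
      simp_rw [h1]
      exact Equiv.iSup_comp (g := fun c => ‖a.U x (a.U c q) - a.U y (a.U c q)‖) (Equiv.mulRight g)
  right g x y := by
    rcases a.hmul with h | h
    · unfold dist
      have h1 : ∀ c, ‖a.U (x * g) (a.U c q) - a.U (y * g) (a.U c q)‖ =
          (fun c => ‖a.U x (a.U c q) - a.U y (a.U c q)‖) ((Equiv.mulLeft g) c) := by
        intro c
        rw [← h x g, ← h y g, ← a.comp, ← a.comp, a.comp g c, h g c]
        rfl
      simp_rw [h1]
      exact Equiv.iSup_comp (g := fun c => ‖a.U x (a.U c q) - a.U y (a.U c q)‖) (Equiv.mulLeft g)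
    · unfold dist
      congr 1
      funext c
      rw [← h g x, ← h g y, ← a.comp, ← a.comp, ← map_sub, (a.U g).norm_map]
  tb := by
    apply TB.approx
    intro ε hε
    obtain ⟨s, hs⟩ := TB.net (a.mem_cpt.mp hq) (ε / 2) (by positivity)
    refine ⟨fun b b' => ∑ c ∈ s, ‖a.U b (a.U c q) - a.U b' (a.U c q)‖, ?_, ?_⟩
    · exact TB.sum s (fun c _ => a.mem_cpt.mp (a.cpt_inv hq c))
    · intro b b'
      apply a.dist_le
      intro c
      obtain ⟨c', hc', hcc⟩ := hs c
      have h1 : ‖a.U b (a.U c q) - a.U b (a.U c' q)‖ < ε / 2 := by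
        rw [← map_sub, (a.U b).norm_map]; exact hcc
      have h2 : ‖a.U b' (a.U c' q) - a.U b' (a.U c q)‖ < ε / 2 := by
        rw [← map_sub, (a.U b').norm_map, ← norm_neg, neg_sub]; exact hcc
      have h3 : ‖a.U b (a.U c' q) - a.U b' (a.U c' q)‖ ≤
          ∑ c ∈ s, ‖a.U b (a.U c q) - a.U b' (a.U c q)‖ :=
        Finset.single_le_sum (f := fun c => ‖a.U b (a.U c q) - a.U b' (a.U c q)‖)
          (fun i _ => norm_nonneg _) hc'
      have h4 : a.U b (a.U c q) - a.U b' (a.U c q) =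
          (a.U b (a.U c q) - a.U b (a.U c' q)) + (a.U b (a.U c' q) - a.U b' (a.U c' q)) +
          (a.U b' (a.U c' q) - a.U b' (a.U c q)) := by abel
      rw [h4]
      refine norm_add₃_le.trans ?_
      linarith

end Act

/-- averaging kernel at scale `r` -/
structure Kern {G : Type*} [Group G] (m : Mean G) (D : BIM G) (r : ℝ) where
  w : G → ℝ
  B : ℝ
  L : ℝ
  nonneg : ∀ x, 0 ≤ w x
  le : ∀ x, w x ≤ B
  Lnn : 0 ≤ L
  supp : ∀ x, w x ≠ 0 → D.d 1 x < r
  lip : ∀ x y, |w x - w y| ≤ L * D.d x y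
  inv : ∀ x, w x⁻¹ = w x
  cls : ∀ x y, w (x * y) = w (y * x)
  mean : m.M w = 1

namespace Kern

variable {G : Type*} [Group G] {m : Mean G} {D : BIM G} {r : ℝ}

theorem exists_kern (m : Mean G) (D : BIM G) (r : ℝ) (hr : 0 < r) : Nonempty (Kern m D r) := by
  set h : G → ℝ := fun x => max 0 (1 - D.d 1 x / r) with hh
  have h0 : ∀ x, 0 ≤ h x := fun x => le_max_left _ _
  have h1 : ∀ x, h x ≤ 1 := fun x => by
    apply max_le zero_le_one
    have := div_nonneg (D.nonneg 1 x) hr.le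
    linarith
  have hb : Bdd h := Bdd.of_mem 0 1 fun x => ⟨h0 x, h1 x⟩
  have hlip : ∀ x y, |h x - h y| ≤ D.d x y / r := by
    intro x y
    have e1 : |h x - h y| ≤ |(1 - D.d 1 x / r) - (1 - D.d 1 y / r)| := by
      have := abs_max_sub_max_le_abs (1 - D.d 1 x / r) (1 - D.d 1 y / r) 0
      simp only [hh]
      rw [max_comm 0, max_comm 0]
      exact this
    refine e1.trans ?_
    have e2 : (1 - D.d 1 x / r) - (1 - D.d 1 y / r) = (D.d 1 y - D.d 1 x) / r := by ring
    rw [e2, abs_div, abs_of_pos hr]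
    apply div_le_div_of_nonneg_right _ hr.le
    rw [abs_le]
    have t1 := D.tri 1 x y
    have t2 := D.tri 1 y x
    rw [D.symm y x] at t2
    constructor <;> linarith
  -- positivity of the mean
  obtain ⟨s, hs⟩ := TB.net D.tb (r / 2) (by positivity)
  have hM0 : 0 ≤ m.M h := m.nonneg hb h0
  have hsum : (1 / 2 : ℝ) ≤ s.card * m.M h := by
    have e1 : m.M (fun x => ∑ c ∈ s, h (c⁻¹ * x)) = s.card * m.M h := by
      rw [m.sum s (fun c _ => hb.comp _)]
      rw [Finset.sum_congr rfl (fun c _ => m.left' c⁻¹ h hb)]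
      simp
    rw [← e1, ← m.const' (1 / 2)]
    refine m.mono' _ _ (Bdd.const _) (Bdd.sum s fun c _ => hb.comp _) (fun x => ?_)
    obtain ⟨c, hc, hcx⟩ := hs x
    have e2 : (1 / 2 : ℝ) ≤ h (c⁻¹ * x) := by
      simp only [hh]
      rw [D.d_one_mul, D.symm]
      apply le_max_of_le_right
      have : D.d x c / r ≤ 1 / 2 := by
        rw [div_le_iff₀ hr]; linarith
      linarith
    exact e2.trans (Finset.single_le_sum (f := fun c => h (c⁻¹ * x)) (fun i _ => h0 _) hc)
  have hMpos : 0 < m.M h := by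
    rcases hM0.lt_or_eq with h' | h'
    · exact h'
    · rw [← h', mul_zero] at hsum
      linarith
  refine ⟨⟨fun x => (m.M h)⁻¹ * h x, (m.M h)⁻¹, (m.M h)⁻¹ * r⁻¹, ?_, ?_, ?_, ?_, ?_, ?_, ?_, ?_⟩⟩
  · intro x; exact mul_nonneg (inv_nonneg.mpr hM0) (h0 x)
  · intro x
    calc (m.M h)⁻¹ * h x ≤ (m.M h)⁻¹ * 1 := mul_le_mul_of_nonneg_left (h1 x) (inv_nonneg.mpr hM0)
      _ = _ := mul_one _
  · exact mul_nonneg (inv_nonneg.mpr hM0) (inv_nonneg.mpr hr.le)
  · intro x hx
    by_contra hcon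
    apply hx
    have : h x = 0 := by
      simp only [hh]
      apply max_eq_left
      have : 1 ≤ D.d 1 x / r := by
        rw [le_div_iff₀ hr]; linarith [not_lt.mp hcon]
      linarith
    rw [this, mul_zero]
  · intro x y
    rw [← mul_sub, abs_mul, abs_of_nonneg (inv_nonneg.mpr hM0), mul_assoc]
    apply mul_le_mul_of_nonneg_left _ (inv_nonneg.mpr hM0)
    refine (hlip x y).trans (le_of_eq ?_)
    rw [div_eq_inv_mul]
  · intro x
    simp only [hh]
    rw [D.d_one_inv]
  · intro x y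
    simp only [hh]
    rw [D.d_one_comm]
  · rw [m.smul' _ _ hb, inv_mul_cancel₀ hMpos.ne']

variable (k : Kern m D r)

theorem bdd : Bdd k.w := Bdd.of_mem 0 k.B fun x => ⟨k.nonneg x, k.le x⟩

theorem Bnn : 0 ≤ k.B := (k.nonneg 1).trans (k.le 1)

theorem bdd_l (c : G) : Bdd (fun s => k.w (c⁻¹ * s)) := k.bdd.comp _

theorem bdd_c (s : G) : Bdd (fun c => k.w (c⁻¹ * s)) := k.bdd.comp _

theorem mean_s (c : G) : m.M (fun s => k.w (c⁻¹ * s)) = 1 := by
  rw [m.left' c⁻¹ k.w k.bdd, k.mean]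

theorem mean_c (s : G) : m.M (fun c => k.w (c⁻¹ * s)) = 1 := by
  have : (fun c => k.w (c⁻¹ * s)) = fun c => k.w (s⁻¹ * c) := by
    funext c
    rw [← k.inv]
    simp
  rw [this]
  exact k.mean_s s

/-- uniform approximation of the averages -/
theorem exists_uniform (S : Set (G → ℝ)) (hS : S.Finite) (hSb : ∀ f ∈ S, Bdd f) (η : ℝ)
    (hη : 0 < η) : ∃ Q : Finset G, Q.Nonempty ∧ (∀ f ∈ S, |avg Q f - m.M f| ≤ η) ∧
      ∀ s, |avg Q (fun c => k.w (c⁻¹ * s)) - 1| ≤ η := by
  obtain ⟨N, hN⟩ := TB.net D.tb (η / (2 * (k.L + 1))) (by have := k.Lnn; positivity)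
  obtain ⟨Q, hQ, hQ'⟩ := m.approx' (S ∪ (fun s : G => fun c => k.w (c⁻¹ * s)) '' (N : Set G))
    (hS.union (N.finite_toSet.image _)) (by
      rintro f (hf | ⟨s, _, rfl⟩)
      · exact hSb f hf
      · exact k.bdd_c s) (η / 2) (by positivity)
  refine ⟨Q, hQ, fun f hf => (hQ' f (Or.inl hf)).trans (by linarith), fun s => ?_⟩
  obtain ⟨c, hc, hcs⟩ := hN s
  have h1 := hQ' _ (Or.inr ⟨c, hc, rfl⟩)
  rw [k.mean_c] at h1
  have h2 : |avg Q (fun x => k.w (x⁻¹ * s)) - avg Q (fun x => k.w (x⁻¹ * c))| ≤ η / 2 := by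
    have e : avg Q (fun x => k.w (x⁻¹ * s)) - avg Q (fun x => k.w (x⁻¹ * c)) =
        avg Q (fun x => k.w (x⁻¹ * s) - k.w (x⁻¹ * c)) := by
      simp only [avg, Finset.sum_sub_distrib, sub_div]
    rw [e]
    apply abs_avg_le _ _ (by positivity)
    intro x
    refine (k.lip _ _).trans ?_
    rw [D.left]
    have := k.Lnn
    calc k.L * D.d s c ≤ k.L * (η / (2 * (k.L + 1))) := mul_le_mul_of_nonneg_left hcs.le k.Lnn
      _ ≤ η / 2 := by
        rw [mul_div_assoc', div_le_div_iff₀ (by positivity) (by positivity)]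
        nlinarith
  have h3 : avg Q (fun x => k.w (x⁻¹ * s)) - 1 =
      (avg Q (fun x => k.w (x⁻¹ * s)) - avg Q (fun x => k.w (x⁻¹ * c))) +
      (avg Q (fun x => k.w (x⁻¹ * c)) - 1) := by ring
  rw [h3]
  refine (abs_add_le _ _).trans ?_
  linarith

end Kern

/-- uniqueness of the mean on Lipschitz functions -/
theorem tendsto_avg_of_lip {G : Type*} [Group G] [DecidableEq G] (m : Mean G) (D : BIM G)
    (Φ : ℕ → Finset G) (hne : ∀ N, (Φ N).Nonempty)
    (hl : ∀ g : G, Tendsto (fun N => ((((Φ N).image (fun x => g * x)) ∩ Φ N).card : ℝ) / (Φ N).card)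
      atTop (𝓝 1)) (f : G → ℝ) (hf : Bdd f) (L : ℝ) (hL0 : 0 ≤ L)
    (hL : ∀ x y, |f x - f y| ≤ L * D.d x y) :
    Tendsto (fun N => avg (Φ N) f) atTop (𝓝 (m.M f)) := by
  rw [Metric.tendsto_atTop]
  intro ε hε
  obtain ⟨C, hC⟩ := hf
  have hf : Bdd f := ⟨C, hC⟩
  set η := ε / 4 with hη
  have hηp : 0 < η := by positivity
  obtain ⟨N, hN⟩ := TB.net D.tb (η / (2 * (L + 1))) (by positivity)
  obtain ⟨Q, hQ, hQ'⟩ := m.approx' ((fun s : G => fun c => f (c * s)) '' (N : Set G))
    (N.finite_toSet.image _) (by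
      rintro g ⟨s, _, rfl⟩
      exact hf.comp _) (η / 2) (by positivity)
  have hunif : ∀ x, |avg Q (fun b => f (b * x)) - m.M f| ≤ η := by
    intro x
    obtain ⟨c, hc, hcs⟩ := hN x
    have h1 := hQ' _ ⟨c, hc, rfl⟩
    beta_reduce at h1
    rw [m.right' c f hf] at h1
    have h2 : |avg Q (fun b => f (b * x)) - avg Q (fun b => f (b * c))| ≤ η / 2 := by
      have e : avg Q (fun b => f (b * x)) - avg Q (fun b => f (b * c)) =
          avg Q (fun b => f (b * x) - f (b * c)) := by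
        simp only [avg, Finset.sum_sub_distrib, sub_div]
      rw [e]
      apply abs_avg_le _ _ (by positivity)
      intro b
      refine (hL _ _).trans ?_
      rw [D.left]
      calc L * D.d x c ≤ L * (η / (2 * (L + 1))) := mul_le_mul_of_nonneg_left hcs.le hL0
        _ ≤ η / 2 := by
          rw [mul_div_assoc', div_le_div_iff₀ (by positivity) (by positivity)]
          nlinarith
    have h3 : avg Q (fun b => f (b * x)) - m.M f =
        (avg Q (fun b => f (b * x)) - avg Q (fun b => f (b * c))) +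
        (avg Q (fun b => f (b * c)) - m.M f) := by ring
    rw [h3]
    refine (abs_add_le _ _).trans ?_
    linarith
  have hshift : ∀ b : G, Tendsto (fun n => avg (Φ n) (fun x => f (b * x)) - avg (Φ n) f)
      atTop (𝓝 0) := by
    intro b
    have h2 : Tendsto (fun N => 2 * C * (1 - ((((Φ N).image (fun x => b * x)) ∩ Φ N).card : ℝ) /
        (Φ N).card)) atTop (𝓝 0) := by
      have := ((hl b).const_sub 1).const_mul (2 * C)
      simpa using this
    exact squeeze_zero_norm (fun n => avg_shift (Equiv.mulLeft b) (Φ n) f hC (hne n)) h2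
  have hev : ∀ᶠ n in atTop, ∀ b ∈ Q, |avg (Φ n) (fun x => f (b * x)) - avg (Φ n) f| < η := by
    rw [Filter.eventually_all_finset]
    intro b _
    have := (Metric.tendsto_nhds.mp (hshift b)) η hηp
    simpa [Real.dist_eq] using this
  rw [Filter.eventually_atTop] at hev
  obtain ⟨n0, hn0⟩ := hev
  refine ⟨n0, fun n hn => ?_⟩
  rw [Real.dist_eq]
  have h1 := hn0 n hn
  have hcQ : (0 : ℝ) < Q.card := by exact_mod_cast hQ.card_pos
  have hcΦ : (0 : ℝ) < (Φ n).card := by exact_mod_cast (hne n).card_pos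
  have h2 : |avg Q (fun b => avg (Φ n) (fun x => f (b * x))) - avg (Φ n) f| ≤ η := by
    have e : avg Q (fun b => avg (Φ n) (fun x => f (b * x))) - avg (Φ n) f =
        (∑ b ∈ Q, (avg (Φ n) (fun x => f (b * x)) - avg (Φ n) f)) / Q.card := by
      rw [Finset.sum_sub_distrib, sub_div]
      unfold avg
      simp only [Finset.sum_const, nsmul_eq_mul]
      field_simp
    rw [e, abs_div, abs_of_pos hcQ, div_le_iff₀ hcQ]
    calc |∑ b ∈ Q, (avg (Φ n) (fun x => f (b * x)) - avg (Φ n) f)|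
        ≤ ∑ b ∈ Q, |avg (Φ n) (fun x => f (b * x)) - avg (Φ n) f| := Finset.abs_sum_le_sum_abs _ _
      _ ≤ ∑ b ∈ Q, η := Finset.sum_le_sum fun b hb => (h1 b hb).le
      _ = η * Q.card := by simp [mul_comm]
  have h3 : avg Q (fun b => avg (Φ n) (fun x => f (b * x))) =
      avg (Φ n) (fun x => avg Q (fun b => f (b * x))) := by
    unfold avg
    rw [← Finset.sum_div, ← Finset.sum_div, Finset.sum_comm]
    field_simp
  have h4 : |avg (Φ n) (fun x => avg Q (fun b => f (b * x))) - m.M f| ≤ η := by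
    have e : avg (Φ n) (fun x => avg Q (fun b => f (b * x))) - m.M f =
        avg (Φ n) (fun x => avg Q (fun b => f (b * x)) - m.M f) := by
      have := avg_const (hne n) (m.M f)
      conv_lhs => rw [← this]
      simp only [avg, Finset.sum_sub_distrib, sub_div]
    rw [e]
    exact abs_avg_le _ hunif hηp.le
  rw [h3] at h2
  rw [abs_sub_comm] at h2
  have h5 : avg (Φ n) f - m.M f = (avg (Φ n) f - avg (Φ n) (fun x => avg Q (fun b => f (b * x)))) +
      (avg (Φ n) (fun x => avg Q (fun b => f (b * x))) - m.M f) := by ring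
  rw [h5]
  refine (abs_add_le _ _).trans_lt ?_
  linarith

end Pool.Agent.TH396.PS
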