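import Mathlib
import Pool.Agent.TH396.PS.Beta
import Pool.Agent.TH396.PS.Lat
import Pool.Agent.TH396.PS.Metric

set_option autoImplicit false

open Filter Topology MeasureTheory

namespace Pool.Agent.TH396.PS

variable {G : Type*} [Group G] (m : Mean G)

/-- left action on ultrafilters -/
noncomputable def actL : MPAct G (mu m) where
  τ b := uhomeo (Equiv.mulLeft b)
  mp b := mp_left m b
  mulc b c := c * b
  comp b c := by
    funext p
    show (p.map (fun x => b * x)).map (fun x => c * x) = p.map (fun x => c * b * x)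
    rw [Ultrafilter.map_map]
    congr 1
    funext x
    simp [mul_assoc]
  one := by
    funext p
    show p.map (fun x => 1 * x) = p
    simp only [one_mul]
    exact p.map_id'
  hmul := Or.inr fun _ _ => rfl

/-- right action on ultrafilters -/
noncomputable def actR : MPAct G (mu m) where
  τ b := uhomeo (Equiv.mulRight b)
  mp b := mp_right m b
  mulc b c := b * c
  comp b c := by
    funext p
    show (p.map (fun x => x * b)).map (fun x => x * c) = p.map (fun x => x * (b * c))
    rw [Ultrafilter.map_map]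
    congr 1
    funext x
    simp [mul_assoc]
  one := by
    funext p
    show p.map (fun x => x * 1) = p
    simp only [mul_one]
    exact p.map_id'
  hmul := Or.inl fun _ _ => rfl

theorem ext_BM {f : G → ℝ} (hf : Bdd f) : BM (ext f) := by
  obtain ⟨C, hC⟩ := hf
  exact ⟨(continuous_ext ⟨C, hC⟩).measurable, C, fun p => ext_bound hC p⟩

variable {D : BIM G} {r : ℝ}

namespace Kern

variable {m}

/-- translate of the kernel extended to ultrafilters -/
noncomputable def W (k : Kern m D r) (c : G) : Ultrafilter G → ℝ := ext (fun s => k.w (c⁻¹ * s))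

theorem W_BM (k : Kern m D r) (c : G) : BM (k.W c) := ext_BM (k.bdd_l c)

theorem W_nonneg (k : Kern m D r) (c : G) (p : Ultrafilter G) : 0 ≤ k.W c p :=
  ext_nonneg (k.bdd_l c) (fun s => k.nonneg _) p

theorem W_le (k : Kern m D r) (c : G) (p : Ultrafilter G) : k.W c p ≤ k.B := by
  have := ext_mono (k.bdd_l c) (Bdd.const k.B) (fun s => k.le _) p
  rwa [ext_const] at this

theorem W_int (k : Kern m D r) (c : G) : ∫ p, k.W c p ∂(mu m) = 1 := by
  unfold W
  rw [integral_ext m (k.bdd_l c), k.mean_s]

/-- invariance identity on the left -/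
theorem W_left (k : Kern m D r) (c : G) (p : Ultrafilter G) :
    k.W (c * c) ((actL m).τ c p) = k.W c p := by
  show ext (fun s => k.w ((c * c)⁻¹ * s)) (p.map (fun x => c * x)) = _
  rw [ext_map]
  unfold W
  congr 1
  funext s
  congr 1
  group

/-- invariance identity on the right -/
theorem W_right (k : Kern m D r) (c : G) (p : Ultrafilter G) :
    k.W (c * c) ((actR m).τ c p) = k.W c p := by
  show ext (fun s => k.w ((c * c)⁻¹ * s)) (p.map (fun x => x * c)) = _
  rw [ext_map]
  unfold W
  congr 1
  funext s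
  have h1 : (c * c)⁻¹ * (s * c) = ((c * c)⁻¹ * s) * c := by group
  have h2 : c * ((c * c)⁻¹ * s) = c⁻¹ * s := by group
  rw [h1, k.cls, h2]

theorem W_dist (k : Kern m D r) (c c' : G) (p : Ultrafilter G) :
    |k.W c p - k.W c' p| ≤ k.L * D.d c c' := by
  apply ext_close (k.bdd_l c) (k.bdd_l c')
  intro s
  refine (k.lip _ _).trans ?_
  rw [D.right, D.inv]

/-- the mean in the translate variable commutes with integration -/
theorem exchange (k : Kern m D r) (F : Ultrafilter G → ℝ) (hF : Integrable F (mu m)) :
    m.M (fun c => ∫ p, F p * k.W c p ∂(mu m)) = ∫ p, F p ∂(mu m) := by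
  have hint : ∀ c, Integrable (fun p => F p * k.W c p) (mu m) := by
    intro c
    apply hF.mul_bdd (c := k.B) (k.W_BM c).meas.aestronglyMeasurable
    exact Eventually.of_forall fun p => by
      rw [Real.norm_eq_abs, abs_of_nonneg (k.W_nonneg c p)]
      exact k.W_le c p
  set I := ∫ p, |F p| ∂(mu m) with hI
  have hI0 : 0 ≤ I := integral_nonneg fun p => abs_nonneg _
  have hb : Bdd (fun c => ∫ p, F p * k.W c p ∂(mu m)) := by
    refine ⟨k.B * I, fun c => ?_⟩
    calc |∫ p, F p * k.W c p ∂(mu m)| ≤ ∫ p, |F p * k.W c p| ∂(mu m) := abs_integral_le_integral_abs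
      _ ≤ ∫ p, k.B * |F p| ∂(mu m) := by
          apply integral_mono (hint c).abs (hF.abs.const_mul _)
          intro p
          show |F p * k.W c p| ≤ k.B * |F p|
          rw [abs_mul, abs_of_nonneg (k.W_nonneg c p), mul_comm]
          exact mul_le_mul_of_nonneg_right (k.W_le c p) (abs_nonneg _)
      _ = k.B * I := integral_const_mul _ _
  have key : ∀ η > 0, |m.M (fun c => ∫ p, F p * k.W c p ∂(mu m)) - ∫ p, F p ∂(mu m)| ≤
      η * (1 + I) := by
    intro η hη
    obtain ⟨Q, hQ, h1, h2⟩ := k.exists_uniform {fun c => ∫ p, F p * k.W c p ∂(mu m)}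
      (Set.finite_singleton _) (by rintro f rfl; exact hb) η hη
    have h3 := h1 _ rfl
    have h4 : avg Q (fun c => ∫ p, F p * k.W c p ∂(mu m)) =
        ∫ p, F p * avg Q (fun c => k.W c p) ∂(mu m) := by
      unfold avg
      rw [← integral_finset_sum _ (fun c _ => hint c), ← integral_div]
      congr 1
      funext p
      rw [← Finset.mul_sum, mul_div_assoc]
    have h5 : ∀ p, |avg Q (fun c => k.W c p) - 1| ≤ η := by
      intro p
      have e1 : avg Q (fun c => k.W c p) = ext (fun s => avg Q (fun c => k.w (c⁻¹ * s))) p := by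
        symm
        apply ext_eq
        unfold avg
        apply Tendsto.div_const
        apply tendsto_finset_sum
        intro c _
        exact tendsto_ext (k.bdd_l c) p
      have e2 : Bdd (fun s => avg Q (fun c => k.w (c⁻¹ * s))) := by
        refine ⟨k.B, fun s => abs_avg_le _ (fun c => ?_) k.Bnn⟩
        rw [abs_of_nonneg (k.nonneg _)]
        exact k.le _
      have := ext_close e2 (Bdd.const 1) h2 p
      rwa [ext_const, ← e1] at this
    have h6 : |avg Q (fun c => ∫ p, F p * k.W c p ∂(mu m)) - ∫ p, F p ∂(mu m)| ≤ η * I := by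
      have hintA : Integrable (fun p => F p * avg Q (fun c => k.W c p)) (mu m) := by
        have : (fun p => F p * avg Q (fun c => k.W c p)) =
            fun p => (∑ c ∈ Q, F p * k.W c p) / Q.card := by
          funext p
          unfold avg
          rw [← Finset.mul_sum, mul_div_assoc]
        rw [this]
        exact (integrable_finset_sum _ (fun c _ => hint c)).div_const _
      rw [h4, ← integral_sub hintA hF]
      calc |∫ p, (F p * avg Q (fun c => k.W c p) - F p) ∂(mu m)|
          ≤ ∫ p, |F p * avg Q (fun c => k.W c p) - F p| ∂(mu m) := abs_integral_le_integral_abs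
        _ ≤ ∫ p, η * |F p| ∂(mu m) := by
            apply integral_mono (hintA.sub hF).abs (hF.abs.const_mul _)
            intro p
            show |F p * avg Q (fun c => k.W c p) - F p| ≤ η * |F p|
            have : F p * avg Q (fun c => k.W c p) - F p =
              (avg Q (fun c => k.W c p) - 1) * F p := by ring
            rw [this, abs_mul]
            exact mul_le_mul_of_nonneg_right (h5 p) (abs_nonneg _)
        _ = η * I := integral_const_mul _ _
    have h7 : m.M (fun c => ∫ p, F p * k.W c p ∂(mu m)) - ∫ p, F p ∂(mu m) =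
      -(avg Q (fun c => ∫ p, F p * k.W c p ∂(mu m)) -
        m.M (fun c => ∫ p, F p * k.W c p ∂(mu m))) +
      (avg Q (fun c => ∫ p, F p * k.W c p ∂(mu m)) - ∫ p, F p ∂(mu m)) := by ring
    rw [h7]
    refine (abs_add_le _ _).trans ?_
    rw [abs_neg]
    linarith
  have h8 : |m.M (fun c => ∫ p, F p * k.W c p ∂(mu m)) - ∫ p, F p ∂(mu m)| ≤ 0 := by
    apply le_of_forall_pos_le_add
    intro ε hε
    rw [zero_add]
    have := key (ε / (1 + I)) (by positivity)
    rwa [div_mul_cancel₀ _ (by positivity)] at this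
  exact sub_eq_zero.mp (abs_nonpos_iff.mp h8)

/-- smoothed function -/
noncomputable def sm (k : Kern m D r) (q : Ultrafilter G → ℝ) (c : G) : ℝ :=
  ∫ p, q p * k.W c p ∂(mu m)

theorem sm_mem (k : Kern m D r) {q : Ultrafilter G → ℝ} (hq : BM q) (h01 : ∀ p, 0 ≤ q p ∧ q p ≤ 1)
    (c : G) : 0 ≤ k.sm q c ∧ k.sm q c ≤ 1 := by
  constructor
  · exact integral_nonneg fun p => mul_nonneg (h01 p).1 (k.W_nonneg c p)
  · rw [← k.W_int c]
    apply integral_mono ((hq.mul (k.W_BM c)).integrable _) ((k.W_BM c).integrable _)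
    intro p
    show q p * k.W c p ≤ k.W c p
    have := mul_le_mul_of_nonneg_right (h01 p).2 (k.W_nonneg c p)
    linarith

theorem sm_lip (k : Kern m D r) {q : Ultrafilter G → ℝ} (hq : BM q) (h01 : ∀ p, 0 ≤ q p ∧ q p ≤ 1)
    (c c' : G) : |k.sm q c - k.sm q c'| ≤ k.L * D.d c c' := by
  unfold sm
  rw [← integral_sub ((hq.mul (k.W_BM c)).integrable _) ((hq.mul (k.W_BM c')).integrable _)]
  calc |∫ p, (q p * k.W c p - q p * k.W c' p) ∂(mu m)|
      ≤ ∫ p, |q p * k.W c p - q p * k.W c' p| ∂(mu m) := abs_integral_le_integral_abs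
    _ ≤ ∫ p, k.L * D.d c c' ∂(mu m) := by
        apply integral_mono
        · exact (((hq.mul (k.W_BM c)).sub (hq.mul (k.W_BM c'))).integrable _).abs
        · exact integrable_const _
        · intro p
          show |q p * k.W c p - q p * k.W c' p| ≤ k.L * D.d c c'
          rw [← mul_sub, abs_mul, abs_of_nonneg (h01 p).1]
          calc q p * |k.W c p - k.W c' p| ≤ 1 * |k.W c p - k.W c' p| :=
                mul_le_mul_of_nonneg_right (h01 p).2 (abs_nonneg _)
            _ ≤ _ := by rw [one_mul]; exact k.W_dist c c' p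
    _ = k.L * D.d c c' := by simp

theorem sm_left (k : Kern m D r) {q : Ultrafilter G → ℝ} (hq : BM q) (c : G) :
    ∫ p, q ((actL m).τ c p) * k.W c p ∂(mu m) = k.sm q (c * c) := by
  unfold sm
  have h1 : ∀ p, q ((actL m).τ c p) * k.W c p =
      (fun p => q p * k.W (c * c) p) ((actL m).τ c p) := by
    intro p
    beta_reduce
    rw [k.W_left]
  simp_rw [h1]
  have h2 := ((actL m).mp c)
  have h3 := integral_map (μ := mu m) h2.measurable.aemeasurable
    (f := fun p => q p * k.W (c * c) p)
    ((hq.mul (k.W_BM (c * c))).meas.aestronglyMeasurable)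
  rw [h2.map_eq] at h3
  exact h3.symm

theorem sm_right (k : Kern m D r) {q : Ultrafilter G → ℝ} (hq : BM q) (c : G) :
    ∫ p, q ((actR m).τ c p) * k.W c p ∂(mu m) = k.sm q (c * c) := by
  unfold sm
  have h1 : ∀ p, q ((actR m).τ c p) * k.W c p =
      (fun p => q p * k.W (c * c) p) ((actR m).τ c p) := by
    intro p
    beta_reduce
    rw [k.W_right]
  simp_rw [h1]
  have h2 := ((actR m).mp c)
  have h3 := integral_map (μ := mu m) h2.measurable.aemeasurable
    (f := fun p => q p * k.W (c * c) p)
    ((hq.mul (k.W_BM (c * c))).meas.aestronglyMeasurable)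
  rw [h2.map_eq] at h3
  exact h3.symm

end Kern

end Pool.Agent.TH396.PS
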