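import Mathlib
import Pool.Agent.TH396.PS.Key1

set_option autoImplicit false
set_option linter.unusedSectionVars false

open Filter Topology MeasureTheory

namespace Pool.Agent.TH396.PS

variable {G : Type*} [Group G]

theorem toL_congr {X : Type*} [MeasurableSpace X] (μ : Measure X) [IsProbabilityMeasure μ]
    {F F' : X → ℝ} (h : BM F) (h' : BM F') (e : F = F') : toL μ h = toL μ h' := by
  subst e; rfl

/-- Lipschitz functions as a subspace of `L²` -/
noncomputable def lipSub (m : Mean G) (D : BIM G) : Submodule ℝ (Lp ℝ 2 (mu m)) where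
  carrier := {g | ∃ (f : G → ℝ) (L : ℝ) (hb : Bdd f), 0 ≤ L ∧ (∀ x y, |f x - f y| ≤ L * D.d x y) ∧
    g = toL (mu m) (ext_BM hb)}
  zero_mem' := by
    refine ⟨fun _ => 0, 0, Bdd.const 0, le_rfl, fun x y => by simp, ?_⟩
    have h1 : toL (mu m) (ext_BM (Bdd.const (α := G) 0)) = toL (mu m) (BM.const 0) := by
      apply toL_congr
      funext p
      exact ext_const 0 p
    rw [h1]
    rfl
  add_mem' := by
    rintro g g' ⟨f, L, hb, hL, hl, rfl⟩ ⟨f', L', hb', hL', hl', rfl⟩
    refine ⟨fun x => f x + f' x, L + L', hb.add hb', add_nonneg hL hL', fun x y => ?_, ?_⟩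
    · have e : f x + f' x - (f y + f' y) = (f x - f y) + (f' x - f' y) := by ring
      rw [e]
      refine (abs_add_le _ _).trans ?_
      have := hl x y
      have := hl' x y
      nlinarith
    · rw [toL_add]
      apply toL_congr
      funext p
      exact (ext_add hb hb' p).symm
  smul_mem' := by
    rintro c g ⟨f, L, hb, hL, hl, rfl⟩
    refine ⟨fun x => c * f x, |c| * L, hb.smul c, by positivity, fun x y => ?_, ?_⟩
    · rw [← mul_sub, abs_mul, mul_assoc]
      exact mul_le_mul_of_nonneg_left (hl x y) (abs_nonneg _)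
    · have hBM : BM (fun p : Ultrafilter G => c * ext f p) := (BM.const c).mul (ext_BM hb)
      have h1 : c • toL (mu m) (ext_BM hb) = toL (mu m) hBM := rfl
      rw [h1]
      apply toL_congr
      funext p
      have := ext_mul (Bdd.const (α := G) c) hb p
      rw [ext_const] at this
      exact this.symm

theorem integral_abs_le {X : Type*} [MeasurableSpace X] (μ : Measure X) [IsProbabilityMeasure μ]
    (F : Lp ℝ 2 μ) (η : ℝ) (hη : 0 < η) (h : ‖F‖ ≤ η) : ∫ x, |F x| ∂μ ≤ η := by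
  have hF : Integrable (F : X → ℝ) μ := (Lp.memLp F).integrable one_le_two
  have hF2 : Integrable (fun x => F x * F x) μ := by
    have := (Lp.memLp F).integrable_sq
    refine this.congr (Eventually.of_forall fun x => ?_)
    show F x ^ 2 = F x * F x
    ring
  have h1 : ∫ x, F x * F x ∂μ = ‖F‖ ^ 2 := by
    rw [← real_inner_self_eq_norm_sq, L2.inner_def]
    congr 1
  calc ∫ x, |F x| ∂μ ≤ ∫ x, (η / 2 + (1 / (2 * η)) * (F x * F x)) ∂μ := by
        apply integral_mono hF.abs ((integrable_const _).add (hF2.const_mul _))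
        intro x
        show |F x| ≤ η / 2 + 1 / (2 * η) * (F x * F x)
        have h3 : η / 2 + 1 / (2 * η) * (F x * F x) - |F x| = (|F x| - η) ^ 2 / (2 * η) := by
          have : F x * F x = |F x| ^ 2 := by rw [sq_abs]; ring
          rw [this]
          field_simp
          ring
        have h4 : 0 ≤ (|F x| - η) ^ 2 / (2 * η) := by positivity
        linarith
    _ = η / 2 + (1 / (2 * η)) * ‖F‖ ^ 2 := by
        rw [integral_add (integrable_const _) (hF2.const_mul _), integral_const_mul, h1]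
        simp
    _ ≤ η / 2 + (1 / (2 * η)) * η ^ 2 := by
        have : ‖F‖ ^ 2 ≤ η ^ 2 := pow_le_pow_left₀ (norm_nonneg _) h 2
        gcongr
    _ = η := by field_simp; norm_num

namespace Kern

variable {m : Mean G} {D : BIM G} {r : ℝ}

theorem sm_ext (k : Kern m D r) {f : G → ℝ} (hf : Bdd f) (c : G) :
    k.sm (ext f) c = m.M (fun s => f s * k.w (c⁻¹ * s)) := by
  unfold sm W
  rw [← integral_ext m (hf.mul (k.bdd_l c))]
  congr 1
  funext p
  rw [ext_mul hf (k.bdd_l c)]

theorem sm_ext_close (k : Kern m D r) {f : G → ℝ} (hf : Bdd f) (L : ℝ) (hL : 0 ≤ L)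
    (hl : ∀ x y, |f x - f y| ≤ L * D.d x y) (c : G) : |k.sm (ext f) c - f c| ≤ L * r := by
  rw [k.sm_ext hf]
  have h1 : f c = m.M (fun s => f c * k.w (c⁻¹ * s)) := by
    rw [m.smul' _ _ (k.bdd_l c), k.mean_s, mul_one]
  have h2 : L * r = m.M (fun s => (L * r) * k.w (c⁻¹ * s)) := by
    rw [m.smul' _ _ (k.bdd_l c), k.mean_s, mul_one]
  conv_lhs => rw [h1]
  rw [← m.sub (hf.mul (k.bdd_l c)) ((k.bdd_l c).smul _), h2]
  refine (m.abs_le_abs ((hf.mul (k.bdd_l c)).sub ((k.bdd_l c).smul _))).trans ?_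
  refine m.mono' _ _ ((hf.mul (k.bdd_l c)).sub ((k.bdd_l c).smul _)).abs ((k.bdd_l c).smul _)
    (fun s => ?_)
  rw [← sub_mul, abs_mul, abs_of_nonneg (k.nonneg _)]
  by_cases hw : k.w (c⁻¹ * s) = 0
  · rw [hw, mul_zero, mul_zero]
  · apply mul_le_mul_of_nonneg_right _ (k.nonneg _)
    refine (hl s c).trans ?_
    apply mul_le_mul_of_nonneg_left _ hL
    have := k.supp _ hw
    rw [D.d_one_mul, D.symm] at this
    exact this.le

end Kern

/-- local densities are close in mean to a Lipschitz function -/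
theorem approx_density (m : Mean G) (D : BIM G) (q : Ultrafilter G → ℝ) (hq : BM q) (η : ℝ)
    (hη : 0 < η) :
    ∃ (f : G → ℝ) (L : ℝ), Bdd f ∧ 0 ≤ L ∧ ∀ (r : ℝ) (k : Kern m D r),
      m.M (fun c => |k.sm q c - f c|) ≤ η + L * r := by
  set K := (lipSub m D).topologicalClosure with hK
  have hcl : IsClosed (K : Set (Lp ℝ 2 (mu m))) := (lipSub m D).isClosed_topologicalClosure
  have : CompleteSpace K := hcl.completeSpace_coe
  set g0 := toL (mu m) hq with hg0
  set p0 := K.starProjection g0 with hp0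
  have hp0K : p0 ∈ K := (K.orthogonalProjectionOnto g0).2
  have hcl2 : p0 ∈ closure ((lipSub m D : Submodule ℝ (Lp ℝ 2 (mu m))) : Set (Lp ℝ 2 (mu m))) := hp0K
  rw [Metric.mem_closure_iff] at hcl2
  obtain ⟨g, ⟨f, L, hb, hL, hl, rfl⟩, hdist⟩ := hcl2 η hη
  rw [dist_eq_norm] at hdist
  refine ⟨f, L, hb, hL, fun r k => ?_⟩
  set F : Lp ℝ 2 (mu m) := p0 - toL (mu m) (ext_BM hb) with hF
  have hFint : Integrable (F : Ultrafilter G → ℝ) (mu m) := (Lp.memLp F).integrable one_le_two
  have hbase : ∀ c, |k.sm q c - f c| ≤ ∫ p, |F p| * k.W c p ∂(mu m) + L * r := by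
    intro c
    have hWmem : toL (mu m) (k.W_BM c) ∈ K := by
      apply Submodule.le_topologicalClosure
      refine ⟨fun s => k.w (c⁻¹ * s), k.L, k.bdd_l c, k.Lnn, fun x y => ?_, rfl⟩
      refine (k.lip _ _).trans ?_
      rw [D.left]
    have h1 : k.sm q c = inner ℝ g0 (toL (mu m) (k.W_BM c)) := by
      rw [hg0, inner_toL]; rfl
    have h2 : inner ℝ (g0 - p0) (toL (mu m) (k.W_BM c)) = 0 :=
      K.starProjection_inner_eq_zero g0 _ hWmem
    have h3 : k.sm (ext f) c = inner ℝ (toL (mu m) (ext_BM hb)) (toL (mu m) (k.W_BM c)) := by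
      rw [inner_toL]; rfl
    have h4 : k.sm q c - f c = inner ℝ F (toL (mu m) (k.W_BM c)) + (k.sm (ext f) c - f c) := by
      rw [hF, inner_sub_left, h1, h3]
      rw [inner_sub_left, sub_eq_zero] at h2
      rw [h2]; ring
    rw [h4]
    refine (abs_add_le _ _).trans (add_le_add ?_ (k.sm_ext_close hb L hL hl c))
    rw [L2.inner_def]
    have hWae := coeFn_toL (mu m) (k.W_BM c)
    calc |∫ p, inner ℝ (F p) ((toL (mu m) (k.W_BM c)) p) ∂(mu m)|
        ≤ ∫ p, |inner ℝ (F p) ((toL (mu m) (k.W_BM c)) p)| ∂(mu m) := abs_integral_le_integral_abs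
      _ = ∫ p, |F p| * k.W c p ∂(mu m) := by
          apply integral_congr_ae
          filter_upwards [hWae] with p hp
          rw [hp]
          simp only [RCLike.inner_apply, conj_trivial]
          rw [abs_mul, abs_of_nonneg (k.W_nonneg c p), mul_comm]
  have hb1 : Bdd (fun c => k.sm q c) := by
    obtain ⟨C, hC⟩ := hq.bdd
    refine ⟨C, fun c => ?_⟩
    unfold Kern.sm
    calc |∫ p, q p * k.W c p ∂(mu m)| ≤ ∫ p, |q p * k.W c p| ∂(mu m) := abs_integral_le_integral_abs
      _ ≤ ∫ p, C * k.W c p ∂(mu m) := by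
          apply integral_mono ((hq.mul (k.W_BM c)).integrable _).abs
            (((k.W_BM c).integrable _).const_mul _)
          intro p
          show |q p * k.W c p| ≤ C * k.W c p
          rw [abs_mul, abs_of_nonneg (k.W_nonneg c p)]
          exact mul_le_mul_of_nonneg_right (hC p) (k.W_nonneg c p)
      _ = C := by rw [integral_const_mul, k.W_int, mul_one]
  have hFabs : ∫ p, |F p| ∂(mu m) ≤ η := integral_abs_le (mu m) F η hη hdist.le
  have hb2 : Bdd (fun c => ∫ p, |F p| * k.W c p ∂(mu m)) := by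
    refine ⟨k.B * η, fun c => ?_⟩
    have hint : Integrable (fun p => |F p| * k.W c p) (mu m) := by
      apply hFint.abs.mul_bdd (c := k.B) (k.W_BM c).meas.aestronglyMeasurable
      exact Eventually.of_forall fun p => by
        rw [Real.norm_eq_abs, abs_of_nonneg (k.W_nonneg c p)]
        exact k.W_le c p
    rw [abs_of_nonneg (integral_nonneg fun p => mul_nonneg (abs_nonneg _) (k.W_nonneg c p))]
    calc ∫ p, |F p| * k.W c p ∂(mu m) ≤ ∫ p, k.B * |F p| ∂(mu m) := by
          apply integral_mono hint (hFint.abs.const_mul _)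
          intro p
          show |F p| * k.W c p ≤ k.B * |F p|
          rw [mul_comm]
          exact mul_le_mul_of_nonneg_right (k.W_le c p) (abs_nonneg _)
      _ = k.B * ∫ p, |F p| ∂(mu m) := integral_const_mul _ _
      _ ≤ k.B * η := mul_le_mul_of_nonneg_left hFabs k.Bnn
  have h5 : m.M (fun c => |k.sm q c - f c|) ≤
      m.M (fun c => ∫ p, |F p| * k.W c p ∂(mu m) + L * r) :=
    m.mono' _ _ (hb1.sub hb).abs (hb2.add (Bdd.const _)) hbase
  rw [m.add' _ _ hb2 (Bdd.const _), m.const', k.exchange _ hFint.abs] at h5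
  linarith

/-- data attached to one side -/
structure Side (m : Mean G) (D : BIM G) (t : MPAct G (mu m)) where
  C : Set (Ultrafilter G)
  hC : MeasurableSet C
  q : Ultrafilter G → ℝ
  hq : BM q
  q01 : ∀ p, 0 ≤ q p ∧ q p ≤ 1
  wm : ∀ φ : Ultrafilter G → ℝ, BM φ →
    m.M (fun b => |∫ p, φ p * (C.indicator 1 (t.τ b p) - q (t.τ b p)) ∂(mu m)|) = 0
  lip : ∀ φ : Ultrafilter G → ℝ, BM φ → ∀ K : ℝ, 0 ≤ K → (∀ p, |φ p| ≤ K) → ∀ b c : G,
    |∫ p, φ p * (q (t.τ b p) - q (t.τ c p)) ∂(mu m)| ≤ K * D.d b c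

namespace Side

variable {m : Mean G} {D : BIM G} {t : MPAct G (mu m)}

theorem one_side (S : Side m D t) {φ : Ultrafilter G → ℝ} (hφ : BM φ)
    {K : ℝ} (hK0 : 0 ≤ K) (hK : ∀ p, |φ p| ≤ K) (b c : G) :
    ∫ p, φ p * S.C.indicator 1 (t.τ b p) ∂(mu m) ≤
      ∫ p, φ p * S.q (t.τ c p) ∂(mu m) + K * D.d b c +
      |∫ p, φ p * (S.C.indicator 1 (t.τ b p) - S.q (t.τ b p)) ∂(mu m)| := by
  have hτ : ∀ b, Measurable (t.τ b) := fun b => (t.mp b).measurable
  have i1 : Integrable (fun p => φ p * S.C.indicator 1 (t.τ b p)) (mu m) :=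
    (hφ.mul ((BM.ind S.hC).comp (hτ b))).integrable _
  have i2 : Integrable (fun p => φ p * S.q (t.τ b p)) (mu m) :=
    (hφ.mul (S.hq.comp (hτ b))).integrable _
  have i3 : Integrable (fun p => φ p * S.q (t.τ c p)) (mu m) :=
    (hφ.mul (S.hq.comp (hτ c))).integrable _
  have h1 := S.lip φ hφ K hK0 hK b c
  have e1 : ∫ p, φ p * (S.C.indicator 1 (t.τ b p) - S.q (t.τ b p)) ∂(mu m) =
      ∫ p, φ p * S.C.indicator 1 (t.τ b p) ∂(mu m) - ∫ p, φ p * S.q (t.τ b p) ∂(mu m) := by
    rw [← integral_sub i1 i2]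
    congr 1
    funext p
    ring
  have e2 : ∫ p, φ p * (S.q (t.τ b p) - S.q (t.τ c p)) ∂(mu m) =
      ∫ p, φ p * S.q (t.τ b p) ∂(mu m) - ∫ p, φ p * S.q (t.τ c p) ∂(mu m) := by
    rw [← integral_sub i2 i3]
    congr 1
    funext p
    ring
  have h2 := le_abs_self (∫ p, φ p * (S.C.indicator 1 (t.τ b p) - S.q (t.τ b p)) ∂(mu m))
  have h3 := (le_abs_self _).trans h1
  rw [e2] at h3
  rw [e1] at h2 ⊢
  linarith

end Side

section claim1

variable {m : Mean G} {D : BIM G} {t t' : MPAct G (mu m)} [Infinite G]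

theorem claim1 (S : Side m D t) (S' : Side m D t') (V : Set G) (E : Finset G)
    (Bad : Set (Ultrafilter G))
    (hbad : ∀ b ∈ V, b ∉ E → ∀ p ∈ Bad, (1 : ℝ) ≤ S.C.indicator 1 (t.τ b p) +
      S'.C.indicator 1 (t'.τ b p))
    {ρ : ℝ} (k : Kern m D ρ) (c : G) (hv : 0 < m.M (fun b => V.indicator 1 b * k.w (c⁻¹ * b)))
    {φ : Ultrafilter G → ℝ} (hφ : BM φ) (h0 : ∀ p, 0 ≤ φ p) {K : ℝ} (hK : ∀ p, φ p ≤ K)
    (hsupp : ∀ p ∉ Bad, φ p = 0) :
    ∫ p, φ p ∂(mu m) ≤ ∫ p, φ p * S.q (t.τ c p) ∂(mu m) + ∫ p, φ p * S'.q (t'.τ c p) ∂(mu m) +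
      2 * K * ρ := by
  have hK0 : 0 ≤ K := (h0 (pure 1)).trans (hK (pure 1))
  have hKabs : ∀ p, |φ p| ≤ K := fun p => by rw [abs_of_nonneg (h0 p)]; exact hK p
  have hτ : ∀ b, Measurable (t.τ b) := fun b => (t.mp b).measurable
  have hτ' : ∀ b, Measurable (t'.τ b) := fun b => (t'.mp b).measurable
  set α : G → ℝ := fun b => V.indicator 1 b * k.w (c⁻¹ * b) with hα
  have hVb : Bdd (V.indicator (1 : G → ℝ)) := by
    refine ⟨1, fun x => ?_⟩
    by_cases hx : x ∈ V <;> simp [hx]
  have hαb : Bdd α := hVb.mul (k.bdd_l c)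
  have hα0 : ∀ b, 0 ≤ α b := fun b =>
    mul_nonneg (Set.indicator_nonneg (fun _ _ => zero_le_one) _) (k.nonneg _)
  have hαB : ∀ b, α b ≤ k.B := by
    intro b
    by_cases hb : b ∈ V
    · simp only [hα, Set.indicator_of_mem hb, Pi.one_apply, one_mul]
      exact k.le _
    · simp only [hα, Set.indicator_of_notMem hb, zero_mul]
      exact k.Bnn
  set e : G → ℝ := fun b => |∫ p, φ p * (S.C.indicator 1 (t.τ b p) - S.q (t.τ b p)) ∂(mu m)| with he
  set e' : G → ℝ := fun b => |∫ p, φ p * (S'.C.indicator 1 (t'.τ b p) - S'.q (t'.τ b p)) ∂(mu m)|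
    with he'
  have gen : ∀ (s : MPAct G (mu m)) (T : Side m D s),
      Bdd (fun b => |∫ p, φ p * (T.C.indicator 1 (s.τ b p) - T.q (s.τ b p)) ∂(mu m)|) := by
    intro s T
    refine ⟨K, fun b => ?_⟩
    rw [abs_abs]
    have hi : BM (fun p => φ p * (T.C.indicator 1 (s.τ b p) - T.q (s.τ b p))) :=
      hφ.mul (((BM.ind T.hC).sub T.hq).comp (s.mp b).measurable)
    calc |∫ p, φ p * (T.C.indicator 1 (s.τ b p) - T.q (s.τ b p)) ∂(mu m)|
        ≤ ∫ p, |φ p * (T.C.indicator 1 (s.τ b p) - T.q (s.τ b p))| ∂(mu m) :=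
          abs_integral_le_integral_abs
      _ ≤ ∫ p, K ∂(mu m) := by
          apply integral_mono (hi.integrable _).abs (integrable_const _)
          intro p
          show |φ p * (T.C.indicator 1 (s.τ b p) - T.q (s.τ b p))| ≤ K
          rw [abs_mul]
          have h1 : |T.C.indicator (1 : Ultrafilter G → ℝ) (s.τ b p) - T.q (s.τ b p)| ≤ 1 := by
            have := T.q01 (s.τ b p)
            rw [abs_le]
            by_cases hx : s.τ b p ∈ T.C
            · rw [Set.indicator_of_mem hx, Pi.one_apply]; constructor <;> linarith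
            · rw [Set.indicator_of_notMem hx]; constructor <;> linarith
          calc |φ p| * |T.C.indicator (1 : Ultrafilter G → ℝ) (s.τ b p) - T.q (s.τ b p)| ≤ K * 1 :=
                mul_le_mul (hKabs p) h1 (abs_nonneg _) hK0
            _ = K := mul_one K
      _ = K := by simp
  have heb : Bdd e := gen t S
  have heb' : Bdd e' := gen t' S'
  set Y := ∫ p, φ p * S.q (t.τ c p) ∂(mu m) + ∫ p, φ p * S'.q (t'.τ c p) ∂(mu m) with hY
  set I := ∫ p, φ p ∂(mu m) with hI
  have hmain : m.M (fun b => I * α b) ≤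
      m.M (fun b => (Y + 2 * K * ρ) * α b + k.B * (e b + e' b)) := by
    refine m.mono_off E (hαb.smul _) ((hαb.smul _).add ((heb.add heb').smul _)) (fun b hb => ?_)
    by_cases hα' : α b = 0
    · rw [hα', mul_zero, mul_zero, zero_add]
      exact mul_nonneg k.Bnn (add_nonneg (abs_nonneg _) (abs_nonneg _))
    · have hbV : b ∈ V := by
        by_contra hcon
        apply hα'
        simp only [hα, Set.indicator_of_notMem hcon, zero_mul]
      have hw : k.w (c⁻¹ * b) ≠ 0 := fun h => hα' (by simp only [hα, h, mul_zero])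
      have hd : D.d b c < ρ := by
        have := k.supp _ hw
        rwa [D.d_one_mul, D.symm] at this
      have i1 : Integrable (fun p => φ p * S.C.indicator 1 (t.τ b p)) (mu m) :=
        (hφ.mul ((BM.ind S.hC).comp (hτ b))).integrable _
      have i2 : Integrable (fun p => φ p * S'.C.indicator 1 (t'.τ b p)) (mu m) :=
        (hφ.mul ((BM.ind S'.hC).comp (hτ' b))).integrable _
      have h1 : I ≤ ∫ p, φ p * S.C.indicator 1 (t.τ b p) ∂(mu m) +
          ∫ p, φ p * S'.C.indicator 1 (t'.τ b p) ∂(mu m) := by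
        rw [← integral_add i1 i2]
        apply integral_mono (hφ.integrable _) (i1.add i2)
        intro p
        show φ p ≤ φ p * S.C.indicator 1 (t.τ b p) + φ p * S'.C.indicator 1 (t'.τ b p)
        rw [← mul_add]
        by_cases hp : p ∈ Bad
        · have := mul_le_mul_of_nonneg_left (hbad b hbV hb p hp) (h0 p)
          linarith
        · rw [hsupp p hp, zero_mul]
      have h2 := S.one_side hφ hK0 hKabs b c
      have h3 := S'.one_side hφ hK0 hKabs b c
      have h4 : I ≤ (Y + 2 * K * ρ) + (e b + e' b) := by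
        have h5 : K * D.d b c ≤ K * ρ := mul_le_mul_of_nonneg_left hd.le hK0
        have h6 : e b + e' b = |∫ p, φ p * (S.C.indicator 1 (t.τ b p) - S.q (t.τ b p)) ∂(mu m)| +
          |∫ p, φ p * (S'.C.indicator 1 (t'.τ b p) - S'.q (t'.τ b p)) ∂(mu m)| := rfl
        rw [h6, hY]
        linarith
      calc I * α b ≤ ((Y + 2 * K * ρ) + (e b + e' b)) * α b :=
            mul_le_mul_of_nonneg_right h4 (hα0 b)
        _ = (Y + 2 * K * ρ) * α b + α b * (e b + e' b) := by ring
        _ ≤ (Y + 2 * K * ρ) * α b + k.B * (e b + e' b) := by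
            have : α b * (e b + e' b) ≤ k.B * (e b + e' b) :=
              mul_le_mul_of_nonneg_right (hαB b) (add_nonneg (abs_nonneg _) (abs_nonneg _))
            linarith
  rw [m.smul' _ _ hαb, m.add' _ _ (hαb.smul _) ((heb.add heb').smul _), m.smul' _ _ hαb,
    m.smul' _ _ (heb.add heb'), m.add' _ _ heb heb', S.wm φ hφ, S'.wm φ hφ, add_zero, mul_zero,
    add_zero] at hmain
  have := le_of_mul_le_mul_right hmain hv
  rw [hY] at this
  linarith

end claim1

end Pool.Agent.TH396.PS
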