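import Mathlib
import Pool.Agent.TH396.PS.Key2

set_option autoImplicit false
set_option linter.unusedSectionVars false

open Filter Topology MeasureTheory

namespace Pool.Agent.TH396.PS

variable {G : Type*} [Group G]

theorem bdd_indicator (V : Set G) : Bdd (V.indicator (1 : G → ℝ)) := by
  refine ⟨1, fun x => ?_⟩
  by_cases hx : x ∈ V <;> simp [hx]

theorem Kern.sm_ind {m : Mean G} {D : BIM G} {r : ℝ} (k : Kern m D r) (V : Set G) (c : G) :
    k.sm ({p : Ultrafilter G | V ∈ p}.indicator 1) c =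
      m.M (fun b => V.indicator 1 b * k.w (c⁻¹ * b)) := by
  rw [← k.sm_ext (bdd_indicator V) c]
  congr 1
  funext p
  exact (ext_indicator V p).symm

theorem meas_basic (V : Set G) : MeasurableSet {p : Ultrafilter G | V ∈ p} :=
  (ultrafilter_isOpen_basic V).measurableSet

section main

variable {m : Mean G} {D : BIM G} [Infinite G]

theorem main_bound_aux (S : Side m D (actL m)) (S' : Side m D (actR m)) {ι : Type*} [Fintype ι]
    (ℓ : G → ι) (E : Finset G) (Bad : ι → Set (Ultrafilter G)) (hmeas : ∀ i, MeasurableSet (Bad i))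
    (hsub : ∀ i, ∀ p ∈ Bad i, ℓ ⁻¹' {i} ∈ p)
    (hbad : ∀ i, ∀ b ∈ ℓ ⁻¹' {i}, b ∉ E → ∀ p ∈ Bad i, (1 : ℝ) ≤
      S.C.indicator 1 ((actL m).τ b p) + S'.C.indicator 1 ((actR m).τ b p))
    (ε : ℝ) (hS : ∀ (r : ℝ) (k : Kern m D r), m.M (fun c => k.sm S.q (c * c)) ≤ ε)
    (hS' : ∀ (r : ℝ) (k : Kern m D r), m.M (fun c => k.sm S'.q (c * c)) ≤ ε)
    {r ρ : ℝ} (hρ : 0 < ρ) (k : Kern m D r) (kρ : Kern m D ρ) :
    ∑ i, (mu m).real (Bad i) ≤ 2 * ε + 2 * (Fintype.card ι) * k.B * ρ +
      ∑ i, m.M (fun c => |kρ.sm ({p : Ultrafilter G | ℓ ⁻¹' {i} ∈ p}.indicator 1) c -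
        k.sm ({p : Ultrafilter G | ℓ ⁻¹' {i} ∈ p}.indicator 1) c|) := by
  classical
  set Vb : ι → Set (Ultrafilter G) := fun i => {p : Ultrafilter G | ℓ ⁻¹' {i} ∈ p} with hVb
  have hVm : ∀ i, MeasurableSet (Vb i) := fun i => meas_basic _
  have smb : ∀ (s : ℝ) (κ : Kern m D s) (Z : Set (Ultrafilter G)), MeasurableSet Z →
      Bdd (fun c => κ.sm (Z.indicator 1) c) := by
    intro s κ Z hZ
    refine Bdd.of_mem 0 1 (fun c => κ.sm_mem (BM.ind hZ) (fun p => ?_) c)
    by_cases hp : p ∈ Z <;> simp [hp]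
  have sqb : ∀ (s : ℝ) (κ : Kern m D s) (q : Ultrafilter G → ℝ), BM q →
      (∀ p, 0 ≤ q p ∧ q p ≤ 1) → Bdd (fun c => κ.sm q (c * c)) := by
    intro s κ q hq h01
    exact Bdd.of_mem 0 1 (fun c => κ.sm_mem hq h01 (c * c))
  -- pointwise inequality
  have hpt : ∀ c, ∑ i, k.sm ((Bad i).indicator 1) c ≤
      k.sm S.q (c * c) + k.sm S'.q (c * c) + 2 * (Fintype.card ι) * k.B * ρ +
      ∑ i, |kρ.sm ((Vb i).indicator 1) c - k.sm ((Vb i).indicator 1) c| := by
    intro c
    set φ : ι → Ultrafilter G → ℝ := fun i p => (Bad i).indicator 1 p * k.W c p with hφ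
    have hφBM : ∀ i, BM (φ i) := fun i => (BM.ind (hmeas i)).mul (k.W_BM c)
    have hφ0 : ∀ i p, 0 ≤ φ i p := fun i p =>
      mul_nonneg (Set.indicator_nonneg (fun _ _ => zero_le_one) _) (k.W_nonneg c p)
    have hφle : ∀ i p, φ i p ≤ k.B := by
      intro i p
      by_cases hp : p ∈ Bad i
      · simp only [hφ, Set.indicator_of_mem hp, Pi.one_apply, one_mul]
        exact k.W_le c p
      · simp only [hφ, Set.indicator_of_notMem hp, zero_mul]
        exact k.Bnn
    have hφsupp : ∀ i, ∀ p ∉ Bad i, φ i p = 0 := by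
      intro i p hp
      simp only [hφ, Set.indicator_of_notMem hp, zero_mul]
    have hφint : ∀ i, k.sm ((Bad i).indicator 1) c = ∫ p, φ i p ∂(mu m) := fun i => rfl
    have hVsm : ∀ (s : ℝ) (κ : Kern m D s) (i : ι), 0 ≤ κ.sm ((Vb i).indicator 1) c := by
      intro s κ i
      refine (κ.sm_mem (BM.ind (hVm i)) (fun p => ?_) c).1
      by_cases hp : p ∈ Vb i <;> simp [hp]
    have hone : ∀ i, k.sm ((Bad i).indicator 1) c ≤
        ∫ p, φ i p * S.q ((actL m).τ c p) ∂(mu m) + ∫ p, φ i p * S'.q ((actR m).τ c p) ∂(mu m) +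
        2 * k.B * ρ + |kρ.sm ((Vb i).indicator 1) c - k.sm ((Vb i).indicator 1) c| := by
      intro i
      have hnn1 : 0 ≤ ∫ p, φ i p * S.q ((actL m).τ c p) ∂(mu m) :=
        integral_nonneg fun p => mul_nonneg (hφ0 i p) (S.q01 _).1
      have hnn2 : 0 ≤ ∫ p, φ i p * S'.q ((actR m).τ c p) ∂(mu m) :=
        integral_nonneg fun p => mul_nonneg (hφ0 i p) (S'.q01 _).1
      have hnn3 : 0 ≤ 2 * k.B * ρ := by have := k.Bnn; positivity
      rcases (hVsm ρ kρ i).lt_or_eq with h | h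
      · rw [kρ.sm_ind] at h
        have := claim1 S S' (ℓ ⁻¹' {i}) E (Bad i) (hbad i) kρ c h (hφBM i) (hφ0 i) (hφle i)
          (hφsupp i)
        rw [hφint]
        have h2 := abs_nonneg (kρ.sm ((Vb i).indicator 1) c - k.sm ((Vb i).indicator 1) c)
        linarith
      · have h1 : k.sm ((Bad i).indicator 1) c ≤ k.sm ((Vb i).indicator 1) c := by
          unfold Kern.sm
          apply integral_mono (((BM.ind (hmeas i)).mul (k.W_BM c)).integrable _)
            (((BM.ind (hVm i)).mul (k.W_BM c)).integrable _)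
          intro p
          show (Bad i).indicator 1 p * k.W c p ≤ (Vb i).indicator 1 p * k.W c p
          apply mul_le_mul_of_nonneg_right _ (k.W_nonneg c p)
          by_cases hp : p ∈ Bad i
          · have hp' : p ∈ Vb i := hsub i p hp
            rw [Set.indicator_of_mem hp, Set.indicator_of_mem hp']
          · rw [Set.indicator_of_notMem hp]
            exact Set.indicator_nonneg (fun _ _ => zero_le_one) _
        have h2 : k.sm ((Vb i).indicator 1) c ≤
            |kρ.sm ((Vb i).indicator 1) c - k.sm ((Vb i).indicator 1) c| := by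
          rw [← h, zero_sub, abs_neg]
          exact le_abs_self _
        linarith
    have hsum : ∑ i, k.sm ((Bad i).indicator 1) c ≤
        ∑ i, (∫ p, φ i p * S.q ((actL m).τ c p) ∂(mu m) +
          ∫ p, φ i p * S'.q ((actR m).τ c p) ∂(mu m) +
        2 * k.B * ρ + |kρ.sm ((Vb i).indicator 1) c - k.sm ((Vb i).indicator 1) c|) :=
      Finset.sum_le_sum fun i _ => hone i
    rw [Finset.sum_add_distrib, Finset.sum_add_distrib, Finset.sum_add_distrib] at hsum
    have hφsum : ∀ p, ∑ i, φ i p ≤ k.W c p := by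
      intro p
      by_cases hex : ∃ i, p ∈ Bad i
      · obtain ⟨i, hi⟩ := hex
        rw [Finset.sum_eq_single i]
        · simp only [hφ, Set.indicator_of_mem hi, Pi.one_apply, one_mul]; exact le_rfl
        · intro j _ hj
          apply hφsupp
          intro hpj
          have h1 := hsub i p hi
          have h2 := hsub j p hpj
          have h3 := Filter.inter_mem h1 h2
          have h4 : ℓ ⁻¹' {i} ∩ ℓ ⁻¹' {j} = ∅ := by
            ext x
            simp only [Set.mem_inter_iff, Set.mem_preimage, Set.mem_singleton_iff,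
              Set.mem_empty_iff_false, iff_false, not_and]
            intro h5 h6
            exact hj (h6.symm.trans h5)
          rw [h4] at h3
          exact p.empty_notMem h3
        · intro h; exact absurd (Finset.mem_univ i) h
      · push Not at hex
        rw [Finset.sum_eq_zero (fun i _ => hφsupp i p (hex i))]
        exact k.W_nonneg c p
    have gen : ∀ (t : MPAct G (mu m)) (T : Side m D t),
        ∑ i, ∫ p, φ i p * T.q (t.τ c p) ∂(mu m) ≤ ∫ p, T.q (t.τ c p) * k.W c p ∂(mu m) := by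
      intro t T
      have hTq : BM (fun p => T.q (t.τ c p)) := T.hq.comp (t.mp c).measurable
      rw [← integral_finsetSum _ (fun i _ => ((hφBM i).mul hTq).integrable _)]
      apply integral_mono (integrable_finsetSum _ (fun i _ => ((hφBM i).mul hTq).integrable _))
        ((hTq.mul (k.W_BM c)).integrable _)
      intro p
      show ∑ i, φ i p * T.q (t.τ c p) ≤ T.q (t.τ c p) * k.W c p
      rw [← Finset.sum_mul, mul_comm]
      exact mul_le_mul_of_nonneg_left (hφsum p) (T.q01 _).1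
    have g1 := gen _ S
    have g2 := gen _ S'
    rw [k.sm_left S.hq] at g1
    rw [k.sm_right S'.hq] at g2
    have hc : ∑ _i : ι, 2 * k.B * ρ = 2 * (Fintype.card ι) * k.B * ρ := by
      rw [Finset.sum_const, Finset.card_univ, nsmul_eq_mul]; ring
    rw [hc] at hsum
    linarith
  -- take the mean
  have hLHS : m.M (fun c => ∑ i, k.sm ((Bad i).indicator 1) c) = ∑ i, (mu m).real (Bad i) := by
    rw [m.sum _ (fun i _ => smb r k _ (hmeas i))]
    refine Finset.sum_congr rfl (fun i _ => ?_)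
    have := k.exchange ((Bad i).indicator 1) ((BM.ind (hmeas i)).integrable _)
    rw [integral_indicator_one (hmeas i)] at this
    exact this
  rw [← hLHS]
  have b1 := sqb r k S.q S.hq S.q01
  have b2 := sqb r k S'.q S'.hq S'.q01
  have b3 : ∀ i ∈ (Finset.univ : Finset ι), Bdd (fun c => |kρ.sm ((Vb i).indicator 1) c -
      k.sm ((Vb i).indicator 1) c|) := fun i _ => ((smb ρ kρ _ (hVm i)).sub (smb r k _ (hVm i))).abs
  refine (m.mono' _ _ (Bdd.sum _ fun i _ => smb r k _ (hmeas i))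
    (((b1.add b2).add (Bdd.const _)).add (Bdd.sum _ b3)) hpt).trans ?_
  rw [m.add' _ _ ((b1.add b2).add (Bdd.const _)) (Bdd.sum _ b3), m.add' _ _ (b1.add b2)
    (Bdd.const _), m.add' _ _ b1 b2, m.const', m.sum _ b3]
  have := hS r k
  have := hS' r k
  linarith

theorem main_bound (S : Side m D (actL m)) (S' : Side m D (actR m)) {ι : Type*} [Fintype ι]
    (ℓ : G → ι) (E : Finset G) (Bad : ι → Set (Ultrafilter G)) (hmeas : ∀ i, MeasurableSet (Bad i))
    (hsub : ∀ i, ∀ p ∈ Bad i, ℓ ⁻¹' {i} ∈ p)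
    (hbad : ∀ i, ∀ b ∈ ℓ ⁻¹' {i}, b ∉ E → ∀ p ∈ Bad i, (1 : ℝ) ≤
      S.C.indicator 1 ((actL m).τ b p) + S'.C.indicator 1 ((actR m).τ b p))
    (ε : ℝ) (hS : ∀ (r : ℝ) (k : Kern m D r), m.M (fun c => k.sm S.q (c * c)) ≤ ε)
    (hS' : ∀ (r : ℝ) (k : Kern m D r), m.M (fun c => k.sm S'.q (c * c)) ≤ ε) :
    ∑ i, (mu m).real (Bad i) ≤ 2 * ε := by
  apply le_of_forall_pos_le_add
  intro κ hκ
  set n : ℝ := (Fintype.card ι : ℝ) with hn
  have hn0 : 0 ≤ n := Nat.cast_nonneg _
  set Vb : ι → Set (Ultrafilter G) := fun i => {p : Ultrafilter G | ℓ ⁻¹' {i} ∈ p} with hVb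
  have hVm : ∀ i, MeasurableSet (Vb i) := fun i => meas_basic _
  have happ := fun i => approx_density m D ((Vb i).indicator 1) (BM.ind (hVm i))
    (κ / (8 * (n + 1))) (by positivity)
  choose f L hfb hL hfL using happ
  set Λ : ℝ := ∑ i, L i with hΛ
  have hΛ0 : 0 ≤ Λ := Finset.sum_nonneg fun i _ => hL i
  set r : ℝ := κ / (8 * (Λ + 1)) with hr
  have hrp : 0 < r := by positivity
  obtain ⟨k⟩ := Kern.exists_kern m D r hrp
  have hB := k.Bnn
  set ρ : ℝ := min r (κ / (8 * (n + 1) * (k.B + 1))) with hρdef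
  have hρ : 0 < ρ := lt_min hrp (by positivity)
  obtain ⟨kρ⟩ := Kern.exists_kern m D ρ hρ
  have h := main_bound_aux S S' ℓ E Bad hmeas hsub hbad ε hS hS' hρ k kρ
  have smb : ∀ (s : ℝ) (κ : Kern m D s) (Z : Set (Ultrafilter G)), MeasurableSet Z →
      Bdd (fun c => κ.sm (Z.indicator 1) c) := by
    intro s κ Z hZ
    refine Bdd.of_mem 0 1 (fun c => κ.sm_mem (BM.ind hZ) (fun p => ?_) c)
    by_cases hp : p ∈ Z <;> simp [hp]
  have hterm : ∀ i, m.M (fun c => |kρ.sm ((Vb i).indicator 1) c - k.sm ((Vb i).indicator 1) c|) ≤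
      2 * (κ / (8 * (n + 1))) + 2 * (L i * r) := by
    intro i
    have c1 := hfL i ρ kρ
    have c2 := hfL i r k
    have bb1 := ((smb ρ kρ _ (hVm i)).sub (hfb i)).abs
    have bb2 := ((smb r k _ (hVm i)).sub (hfb i)).abs
    have : m.M (fun c => |kρ.sm ((Vb i).indicator 1) c - k.sm ((Vb i).indicator 1) c|) ≤
        m.M (fun c => |kρ.sm ((Vb i).indicator 1) c - f i c| +
          |k.sm ((Vb i).indicator 1) c - f i c|) := by
      refine m.mono' _ _ ((smb ρ kρ _ (hVm i)).sub (smb r k _ (hVm i))).abs (bb1.add bb2)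
        (fun c => ?_)
      have e : kρ.sm ((Vb i).indicator 1) c - k.sm ((Vb i).indicator 1) c =
        (kρ.sm ((Vb i).indicator 1) c - f i c) - (k.sm ((Vb i).indicator 1) c - f i c) := by ring
      rw [e]
      exact abs_sub _ _
    rw [m.add' _ _ bb1 bb2] at this
    have h3 : L i * ρ ≤ L i * r := mul_le_mul_of_nonneg_left (min_le_left _ _) (hL i)
    linarith
  have hsum : ∑ i, m.M (fun c => |kρ.sm ((Vb i).indicator 1) c - k.sm ((Vb i).indicator 1) c|) ≤
      n * (2 * (κ / (8 * (n + 1)))) + 2 * (Λ * r) := by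
    refine (Finset.sum_le_sum fun i _ => hterm i).trans ?_
    rw [Finset.sum_add_distrib, Finset.sum_const, Finset.card_univ, nsmul_eq_mul,
      ← Finset.mul_sum, ← Finset.sum_mul]
  have e1 : n * (2 * (κ / (8 * (n + 1)))) ≤ κ / 4 := by
    have : n * (2 * (κ / (8 * (n + 1)))) = (κ / 4) * (n / (n + 1)) := by field_simp; ring
    rw [this]
    have h1 : n / (n + 1) ≤ 1 := by rw [div_le_one (by positivity)]; linarith
    calc κ / 4 * (n / (n + 1)) ≤ κ / 4 * 1 := mul_le_mul_of_nonneg_left h1 (by positivity)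
      _ = κ / 4 := mul_one _
  have e2 : 2 * (Λ * r) ≤ κ / 4 := by
    have : 2 * (Λ * r) = (κ / 4) * (Λ / (Λ + 1)) := by rw [hr]; field_simp; ring
    rw [this]
    have h1 : Λ / (Λ + 1) ≤ 1 := by rw [div_le_one (by positivity)]; linarith
    calc κ / 4 * (Λ / (Λ + 1)) ≤ κ / 4 * 1 := mul_le_mul_of_nonneg_left h1 (by positivity)
      _ = κ / 4 := mul_one _
  have e3 : 2 * n * k.B * ρ ≤ κ / 4 := by
    have h1 : ρ ≤ κ / (8 * (n + 1) * (k.B + 1)) := min_le_right _ _
    have h2 : 2 * n * k.B * ρ ≤ 2 * n * k.B * (κ / (8 * (n + 1) * (k.B + 1))) :=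
      mul_le_mul_of_nonneg_left h1 (by positivity)
    refine h2.trans ?_
    have : 2 * n * k.B * (κ / (8 * (n + 1) * (k.B + 1))) =
      (κ / 4) * ((n / (n + 1)) * (k.B / (k.B + 1))) := by field_simp; ring
    rw [this]
    have h3 : n / (n + 1) ≤ 1 := by rw [div_le_one (by positivity)]; linarith
    have h4 : k.B / (k.B + 1) ≤ 1 := by rw [div_le_one (by positivity)]; linarith
    have h5 : (n / (n + 1)) * (k.B / (k.B + 1)) ≤ 1 * 1 :=
      mul_le_mul h3 h4 (by positivity) zero_le_one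
    calc κ / 4 * ((n / (n + 1)) * (k.B / (k.B + 1))) ≤ κ / 4 * (1 * 1) :=
          mul_le_mul_of_nonneg_left h5 (by positivity)
      _ = κ / 4 := by ring
  have h' : ∑ i, (mu m).real (Bad i) ≤ 2 * ε + 2 * n * k.B * ρ +
      ∑ i, m.M (fun c => |kρ.sm ((Vb i).indicator 1) c - k.sm ((Vb i).indicator 1) c|) := h
  linarith

end main

end Pool.Agent.TH396.PS
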