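import Mathlib
import Pool.Agent.TH396.PS.Key3

set_option autoImplicit false
set_option linter.unusedSectionVars false

open Filter Topology MeasureTheory

namespace Pool.Agent.TH396.PS

variable {G : Type*} [Group G]

/-- square absolute continuity transferred to the mean of Lipschitz functions -/
theorem sac_mean [DecidableEq G] (Φ Ψ : ℕ → Finset G) (hne : ∀ N, (Φ N).Nonempty)
    (hl : ∀ g : G, Tendsto (fun N => ((((Φ N).image (fun x => g * x)) ∩ Φ N).card : ℝ) / (Φ N).card)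
      atTop (𝓝 1)) (hne' : ∀ N, (Ψ N).Nonempty)
    (hl' : ∀ g : G, Tendsto (fun N => ((((Ψ N).image (fun x => g * x)) ∩ Ψ N).card : ℝ) / (Ψ N).card)
      atTop (𝓝 1))
    (P : ∀ ε > 0, ∃ δ > 0, ∀ u : G → ℝ, (∀ g, 0 ≤ u g ∧ u g ≤ 1) →
      limsup (fun N => avg (Φ N) u) atTop < δ →
      limsup (fun N => avg (Ψ N) (fun g => u (g ^ 2))) atTop < ε) (ε : ℝ) (hε : 0 < ε) :
    ∃ δ > 0, ∀ (m : Mean G) (D : BIM G) (u : G → ℝ) (L : ℝ), (∀ g, 0 ≤ u g ∧ u g ≤ 1) → 0 ≤ L →
      (∀ x y, |u x - u y| ≤ L * D.d x y) → m.M u < δ → m.M (fun g => u (g * g)) ≤ ε := by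
  obtain ⟨δ, hδ, hP⟩ := P ε hε
  refine ⟨δ, hδ, fun m D u L h01 hL0 hL hm => ?_⟩
  have hb : Bdd u := Bdd.of_mem 0 1 h01
  have h1 := tendsto_avg_of_lip m D Φ hne hl u hb L hL0 hL
  have h2 := tendsto_avg_of_lip m D Ψ hne' hl' (fun g => u (g * g)) (hb.comp _) (L * 2)
    (by positivity) (fun x y => by
      refine (hL _ _).trans ?_
      rw [mul_assoc]
      exact mul_le_mul_of_nonneg_left (D.d_sq x y) hL0)
  have h3 : limsup (fun N => avg (Φ N) u) atTop < δ := by rw [h1.limsup_eq]; exact hm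
  have h4 := hP u h01 h3
  have h5 : (fun N => avg (Ψ N) (fun g => u (g ^ 2))) = fun N => avg (Ψ N) (fun g => u (g * g)) := by
    funext N
    congr 1
    funext g
    rw [sq]
  rw [h5, h2.limsup_eq] at h4
  exact h4.le

/-- construction of the two sides -/
theorem exists_sides (m : Mean G) (C C' : Set (Ultrafilter G)) (hC : MeasurableSet C)
    (hC' : MeasurableSet C') :
    ∃ (D : BIM G) (S : Side m D (actL m)) (S' : Side m D (actR m)), S.C = C ∧ S'.C = C' ∧
      (∫ p, S.q p ∂(mu m) = (mu m).real C) ∧ (∫ p, S'.q p ∂(mu m) = (mu m).real C') := by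
  obtain ⟨q, hq, q01, hqi, hqc, hqw⟩ := (actL m).compact_part m C hC
  obtain ⟨q', hq', q01', hqi', hqc', hqw'⟩ := (actR m).compact_part m C' hC'
  set D1 := (actL m).act.bim _ hqc with hD1
  set D2 := (actR m).act.bim _ hqc' with hD2
  have gen : ∀ (t : MPAct G (mu m)) (q : Ultrafilter G → ℝ) (hq : BM q)
      (hqc : toL (mu m) hq ∈ t.act.cpt) (φ : Ultrafilter G → ℝ), BM φ → ∀ K : ℝ, 0 ≤ K →
      (∀ p, |φ p| ≤ K) → ∀ b c : G,
      |∫ p, φ p * (q (t.τ b p) - q (t.τ c p)) ∂(mu m)| ≤ K * (t.act.bim _ hqc).d b c := by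
    intro t q hq hqc φ hφ K hK0 hK b c
    have h1 : ∫ p, φ p * (q (t.τ b p) - q (t.τ c p)) ∂(mu m) =
        inner ℝ (toL (mu m) hφ) (t.act.U b (toL (mu m) hq) - t.act.U c (toL (mu m) hq)) := by
      rw [t.U_toL, t.U_toL, toL_sub, inner_toL]
    rw [h1]
    refine (abs_real_inner_le_norm _ _).trans ?_
    apply mul_le_mul (norm_toL_le (mu m) hφ hK hK0) _ (norm_nonneg _) hK0
    exact t.act.le_dist' _ b c
  refine ⟨D1.add D2, ⟨C, hC, q, hq, q01, hqw, ?_⟩, ⟨C', hC', q', hq', q01', hqw', ?_⟩, rfl, rfl,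
    hqi, hqi'⟩
  · intro φ hφ K hK0 hK b c
    refine (gen _ q hq hqc φ hφ K hK0 hK b c).trans ?_
    apply mul_le_mul_of_nonneg_left _ hK0
    show D1.d b c ≤ D1.d b c + D2.d b c
    have := D2.nonneg b c
    linarith
  · intro φ hφ K hK0 hK b c
    refine (gen _ q' hq' hqc' φ hφ K hK0 hK b c).trans ?_
    apply mul_le_mul_of_nonneg_left _ hK0
    show D2.d b c ≤ D1.d b c + D2.d b c
    have := D1.nonneg b c
    linarith

/-- set of `p` for which some translate parameter in `F` works -/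
def hitSet (R : G → Set G) (F : Set G) : Set (Ultrafilter G) := {p | ∃ t ∈ F, R t ∈ p}

theorem hitSet_open (R : G → Set G) (F : Set G) : IsOpen (hitSet R F) := by
  have : hitSet R F = ⋃ t ∈ F, {p : Ultrafilter G | R t ∈ p} := by
    ext p
    simp [hitSet]
  rw [this]
  exact isOpen_biUnion fun t _ => ultrafilter_isOpen_basic _

theorem exists_finite_hit [Countable G] (m : Mean G) (R : G → Set G) (δ : ℝ) (hδ : 0 < δ) :
    ∃ F : Finset G, ∀ F' : Finset G, F ⊆ F' →
      (mu m).real (hitSet R Set.univ \ hitSet R (F' : Set G)) < δ := by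
  classical
  have hmono : Monotone (fun F : Finset G => hitSet R (F : Set G)) := by
    intro F F' hFF p hp
    obtain ⟨t, ht, htp⟩ := hp
    exact ⟨t, hFF ht, htp⟩
  have hun : ⋃ F : Finset G, hitSet R (F : Set G) = hitSet R Set.univ := by
    ext p
    simp only [Set.mem_iUnion]
    constructor
    · rintro ⟨F, t, _, htp⟩
      exact ⟨t, trivial, htp⟩
    · rintro ⟨t, _, htp⟩
      exact ⟨{t}, t, by simp, htp⟩
  have h1 := tendsto_measure_iUnion_atTop (μ := mu m) hmono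
  rw [hun] at h1
  have h2 : Tendsto (fun F : Finset G => (mu m).real (hitSet R (F : Set G))) atTop
      (𝓝 ((mu m).real (hitSet R Set.univ))) :=
    (ENNReal.tendsto_toReal (measure_ne_top _ _)).comp h1
  have h3 := (Metric.tendsto_atTop.mp h2) δ hδ
  obtain ⟨F, hF⟩ := h3
  refine ⟨F, fun F' hFF => ?_⟩
  have h4 := hF F' hFF
  rw [Real.dist_eq] at h4
  have hsub : hitSet R (F' : Set G) ⊆ hitSet R Set.univ := by
    rintro p ⟨t, _, htp⟩
    exact ⟨t, trivial, htp⟩
  rw [measureReal_sdiff hsub (hitSet_open R _).measurableSet]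
  have := neg_abs_le ((mu m).real (hitSet R (F' : Set G)) - (mu m).real (hitSet R Set.univ))
  linarith

/-- the good set for a finite window `H` -/
def good (A : Set G) (F : Finset G) (H : Finset G) : Set (Ultrafilter G) :=
  {p | A ∈ p ∧ ∃ b, b ∉ H ∧ (∀ h ∈ H, ({x | h * x ∈ A} ∈ p → h * b ∈ A) ∧
    ({x | x * h ∈ A} ∈ p → b * h ∈ A)) ∧ (∃ t ∈ F, {x | t * (b * x) ∈ A} ∈ p) ∧
    (∃ r ∈ F, {x | (x * b) * r ∈ A} ∈ p)}

theorem mem_iff_hit_left (m : Mean G) (A : Set G) (F : Set G) (b : G) (p : Ultrafilter G) :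
    (actL m).τ b p ∈ hitSet (fun t => {x | t * x ∈ A}) F ↔ ∃ t ∈ F, {x | t * (b * x) ∈ A} ∈ p := by
  show (∃ t ∈ F, {x | t * x ∈ A} ∈ p.map (fun x => b * x)) ↔ _
  simp only [Ultrafilter.mem_map]
  rfl

theorem mem_iff_hit_right (m : Mean G) (A : Set G) (F : Set G) (b : G) (p : Ultrafilter G) :
    (actR m).τ b p ∈ hitSet (fun r => {x | x * r ∈ A}) F ↔ ∃ r ∈ F, {x | (x * b) * r ∈ A} ∈ p := by
  show (∃ r ∈ F, {x | x * r ∈ A} ∈ p.map (fun x => x * b)) ↔ _
  simp only [Ultrafilter.mem_map]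
  rfl

theorem good_measurable [Countable G] (A : Set G) (F H : Finset G) :
    MeasurableSet (good A F H) := by
  have : good A F H = {p | A ∈ p} ∩ ⋃ b : G, {p | b ∉ H ∧ (∀ h ∈ H, ({x | h * x ∈ A} ∈ p → h * b ∈ A) ∧
    ({x | x * h ∈ A} ∈ p → b * h ∈ A)) ∧ (∃ t ∈ F, {x | t * (b * x) ∈ A} ∈ p) ∧
    (∃ r ∈ F, {x | (x * b) * r ∈ A} ∈ p)} := by
    ext p
    simp only [good, Set.mem_ofPred_eq, Set.mem_inter_iff, Set.mem_iUnion]
  rw [this]
  refine (meas_basic A).inter (MeasurableSet.iUnion fun b => ?_)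
  refine (MeasurableSet.const _).inter (MeasurableSet.inter ?_ (MeasurableSet.inter ?_ ?_))
  · have : {p : Ultrafilter G | ∀ h ∈ H, ({x | h * x ∈ A} ∈ p → h * b ∈ A) ∧
      ({x | x * h ∈ A} ∈ p → b * h ∈ A)} = ⋂ h ∈ H, ({p : Ultrafilter G | {x | h * x ∈ A} ∈ p → h * b ∈ A} ∩
        {p : Ultrafilter G | {x | x * h ∈ A} ∈ p → b * h ∈ A}) := by
      ext p
      simp
    show MeasurableSet {p : Ultrafilter G | ∀ h ∈ H, ({x | h * x ∈ A} ∈ p → h * b ∈ A) ∧
      ({x | x * h ∈ A} ∈ p → b * h ∈ A)}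
    rw [this]
    refine Finset.measurableSet_biInter _ fun h _ => MeasurableSet.inter ?_ ?_
    · have : {p : Ultrafilter G | {x | h * x ∈ A} ∈ p → h * b ∈ A} =
        {p : Ultrafilter G | {x | h * x ∈ A} ∈ p}ᶜ ∪ {_p : Ultrafilter G | h * b ∈ A} := by
        ext p
        simp only [Set.mem_ofPred_eq, Set.mem_union, Set.mem_compl_iff]
        tauto
      rw [this]
      exact (meas_basic _).compl.union (MeasurableSet.const _)
    · have : {p : Ultrafilter G | {x | x * h ∈ A} ∈ p → b * h ∈ A} =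
        {p : Ultrafilter G | {x | x * h ∈ A} ∈ p}ᶜ ∪ {_p : Ultrafilter G | b * h ∈ A} := by
        ext p
        simp only [Set.mem_ofPred_eq, Set.mem_union, Set.mem_compl_iff]
        tauto
      rw [this]
      exact (meas_basic _).compl.union (MeasurableSet.const _)
  · have : {p : Ultrafilter G | ∃ t ∈ F, {x | t * (b * x) ∈ A} ∈ p} =
      ⋃ t ∈ F, {p : Ultrafilter G | {x | t * (b * x) ∈ A} ∈ p} := by
      ext p
      simp
    show MeasurableSet {p : Ultrafilter G | ∃ t ∈ F, {x | t * (b * x) ∈ A} ∈ p}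
    rw [this]
    exact Finset.measurableSet_biUnion _ fun t _ => meas_basic _
  · have : {p : Ultrafilter G | ∃ r ∈ F, {x | (x * b) * r ∈ A} ∈ p} =
      ⋃ r ∈ F, {p : Ultrafilter G | {x | (x * b) * r ∈ A} ∈ p} := by
      ext p
      simp
    show MeasurableSet {p : Ultrafilter G | ∃ r ∈ F, {x | (x * b) * r ∈ A} ∈ p}
    rw [this]
    exact Finset.measurableSet_biUnion _ fun t _ => meas_basic _

theorem exists_color {ι : Type*} [Finite ι] (ℓ : G → ι) (p : Ultrafilter G) :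
    ∃ i, ℓ ⁻¹' {i} ∈ p := by
  by_contra hcon
  push Not at hcon
  have h1 : ∀ i, (ℓ ⁻¹' {i})ᶜ ∈ p := fun i => Ultrafilter.compl_mem_iff_notMem.mpr (hcon i)
  have h2 : (⋂ i, (ℓ ⁻¹' {i})ᶜ) ∈ (p : Filter G) := Filter.iInter_mem.mpr h1
  have h3 : (⋂ i, (ℓ ⁻¹' {i})ᶜ) = ∅ := by
    ext x
    simp
  rw [h3] at h2
  exact p.empty_notMem h2

/-- key lemma -/
theorem key_lemma [Countable G] [Infinite G] (m : Mean G) (A : Set G) (F : Finset G) (ε : ℝ)
    (D : BIM G) (S : Side m D (actL m)) (S' : Side m D (actR m))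
    (hSC : S.C = hitSet (fun t => {x | t * x ∈ A}) Set.univ \ hitSet (fun t => {x | t * x ∈ A}) F)
    (hSC' : S'.C = hitSet (fun r => {x | x * r ∈ A}) Set.univ \ hitSet (fun r => {x | x * r ∈ A}) F)
    (hS : ∀ (r : ℝ) (k : Kern m D r), m.M (fun c => k.sm S.q (c * c)) ≤ ε)
    (hS' : ∀ (r : ℝ) (k : Kern m D r), m.M (fun c => k.sm S'.q (c * c)) ≤ ε) (H : Finset G) :
    (mu m).real {p | A ∈ p} - 2 * ε ≤ (mu m).real (good A F H) := by
  classical
  set ℓ : G → (H → Bool × Bool) := fun x h => (decide ((h : G) * x ∈ A), decide (x * (h : G) ∈ A))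
    with hℓ
  set Bad : (H → Bool × Bool) → Set (Ultrafilter G) := fun i =>
    {p | A ∈ p} ∩ {p | ℓ ⁻¹' {i} ∈ p} ∩ ⋂ b : G, {p | b ∉ H → ℓ b = i →
      ¬ ((∃ t ∈ F, {x | t * (b * x) ∈ A} ∈ p) ∧ (∃ r ∈ F, {x | (x * b) * r ∈ A} ∈ p))} with hBad
  have hmeas : ∀ i, MeasurableSet (Bad i) := by
    intro i
    refine ((meas_basic A).inter (meas_basic _)).inter (MeasurableSet.iInter fun b => ?_)
    by_cases h1 : b ∉ H ∧ ℓ b = i
    · have : {p : Ultrafilter G | b ∉ H → ℓ b = i →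
        ¬ ((∃ t ∈ F, {x | t * (b * x) ∈ A} ∈ p) ∧ (∃ r ∈ F, {x | (x * b) * r ∈ A} ∈ p))} =
        ((⋃ t ∈ F, {p : Ultrafilter G | {x | t * (b * x) ∈ A} ∈ p}) ∩
          (⋃ r ∈ F, {p : Ultrafilter G | {x | (x * b) * r ∈ A} ∈ p}))ᶜ := by
        ext p
        simp only [Set.mem_ofPred_eq, h1.1, h1.2, not_false_eq_true, true_imp_iff,
          Set.mem_compl_iff, Set.mem_inter_iff, Set.mem_iUnion, exists_prop]
      rw [this]
      exact ((Finset.measurableSet_biUnion _ fun t _ => meas_basic _).inter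
        (Finset.measurableSet_biUnion _ fun t _ => meas_basic _)).compl
    · have : {p : Ultrafilter G | b ∉ H → ℓ b = i →
        ¬ ((∃ t ∈ F, {x | t * (b * x) ∈ A} ∈ p) ∧ (∃ r ∈ F, {x | (x * b) * r ∈ A} ∈ p))} =
        Set.univ := by
        ext p
        simp only [Set.mem_ofPred_eq, Set.mem_univ, iff_true]
        intro h2 h3
        exact absurd ⟨h2, h3⟩ h1
      rw [this]
      exact MeasurableSet.univ
  have hbound := main_bound S S' ℓ H Bad hmeas (fun i p hp => hp.1.2) (by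
    intro i b hb hbH p hp
    have h1 : A ∈ p := hp.1.1
    have h2 := Set.mem_iInter.mp hp.2 b hbH hb
    have hL : (actL m).τ b p ∈ hitSet (fun t => {x | t * x ∈ A}) Set.univ := by
      rw [mem_iff_hit_left]
      refine ⟨b⁻¹, trivial, ?_⟩
      have : {x | b⁻¹ * (b * x) ∈ A} = A := by ext x; simp
      rw [this]; exact h1
    have hR : (actR m).τ b p ∈ hitSet (fun r => {x | x * r ∈ A}) Set.univ := by
      rw [mem_iff_hit_right]
      refine ⟨b⁻¹, trivial, ?_⟩
      have : {x | (x * b) * b⁻¹ ∈ A} = A := by ext x; simp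
      rw [this]; exact h1
    rw [not_and_or] at h2
    rcases h2 with h2 | h2
    · have hmem : (actL m).τ b p ∈ S.C := by
        rw [hSC]
        refine ⟨hL, fun hh => h2 ?_⟩
        rw [mem_iff_hit_left] at hh
        exact hh
      rw [Set.indicator_of_mem hmem, Pi.one_apply]
      have := Set.indicator_nonneg (s := S'.C) (f := (1 : Ultrafilter G → ℝ))
        (fun _ _ => zero_le_one) ((actR m).τ b p)
      linarith
    · have hmem : (actR m).τ b p ∈ S'.C := by
        rw [hSC']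
        refine ⟨hR, fun hh => h2 ?_⟩
        rw [mem_iff_hit_right] at hh
        exact hh
      rw [Set.indicator_of_mem hmem, Pi.one_apply]
      have := Set.indicator_nonneg (s := S.C) (f := (1 : Ultrafilter G → ℝ))
        (fun _ _ => zero_le_one) ((actL m).τ b p)
      linarith) ε hS hS'
  have hcover : {p : Ultrafilter G | A ∈ p} ⊆ good A F H ∪ ⋃ i, Bad i := by
    intro p hp
    by_cases hg : p ∈ good A F H
    · exact Or.inl hg
    · right
      obtain ⟨i, hi⟩ := exists_color ℓ p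
      refine Set.mem_iUnion.mpr ⟨i, ⟨hp, hi⟩, ?_⟩
      refine Set.mem_iInter.mpr fun b => ?_
      intro hbH hbi hcon
      apply hg
      refine ⟨hp, b, hbH, fun h hh => ⟨fun h1 => ?_, fun h1 => ?_⟩, hcon.1, hcon.2⟩
      · obtain ⟨x, hx1, hx2⟩ := p.nonempty_of_mem (Filter.inter_mem hi h1)
        have e1 : ℓ x = ℓ b := by rw [hbi]; exact hx1
        have e2 := congrArg Prod.fst (congrFun e1 ⟨h, hh⟩)
        simp only [hℓ] at e2
        have e3 : h * x ∈ A := hx2
        have e4 : decide (h * x ∈ A) = true := decide_eq_true e3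
        rw [e4] at e2
        exact of_decide_eq_true e2.symm
      · obtain ⟨x, hx1, hx2⟩ := p.nonempty_of_mem (Filter.inter_mem hi h1)
        have e1 : ℓ x = ℓ b := by rw [hbi]; exact hx1
        have e2 := congrArg Prod.snd (congrFun e1 ⟨h, hh⟩)
        simp only [hℓ] at e2
        have e3 : x * h ∈ A := hx2
        have e4 : decide (x * h ∈ A) = true := decide_eq_true e3
        rw [e4] at e2
        exact of_decide_eq_true e2.symm
  have h1 : (mu m).real {p : Ultrafilter G | A ∈ p} ≤ (mu m).real (good A F H) +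
      ∑ i, (mu m).real (Bad i) := by
    calc (mu m).real {p : Ultrafilter G | A ∈ p} ≤ (mu m).real (good A F H ∪ ⋃ i, Bad i) :=
          measureReal_mono hcover
      _ ≤ (mu m).real (good A F H) + (mu m).real (⋃ i, Bad i) := measureReal_union_le _ _
      _ ≤ _ := by
          gcongr
          exact measureReal_iUnion_fintype_le _
  linarith

/-- existence of a good ultrafilter -/
theorem exists_good [Countable G] [Infinite G] (m : Mean G) (A : Set G) (hA : 0 < m.M (A.indicator 1))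
    (hsac : ∀ ε > 0, ∃ δ > 0, ∀ (m : Mean G) (D : BIM G) (u : G → ℝ) (L : ℝ),
      (∀ g, 0 ≤ u g ∧ u g ≤ 1) → 0 ≤ L →
      (∀ x y, |u x - u y| ≤ L * D.d x y) → m.M u < δ → m.M (fun g => u (g * g)) ≤ ε) :
    ∃ (F : Finset G) (p : Ultrafilter G), ∀ H : Finset G, p ∈ good A F H := by
  classical
  have hμA : (mu m).real {p : Ultrafilter G | A ∈ p} = m.M (A.indicator 1) := mu_basic m A
  set α := m.M (A.indicator 1) with hα
  obtain ⟨δ, hδ, hδ'⟩ := hsac (α / 4) (by positivity)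
  obtain ⟨F1, hF1⟩ := exists_finite_hit m (fun t => {x | t * x ∈ A}) δ hδ
  obtain ⟨F2, hF2⟩ := exists_finite_hit m (fun r => {x | x * r ∈ A}) δ hδ
  set F := F1 ∪ F2 with hF
  have h1 := hF1 F Finset.subset_union_left
  have h2 := hF2 F Finset.subset_union_right
  have hop : ∀ R : G → Set G, MeasurableSet (hitSet R Set.univ \ hitSet R (F : Set G)) := fun R =>
    (hitSet_open R _).measurableSet.diff (hitSet_open R _).measurableSet
  obtain ⟨D, S, S', hSC, hSC', hSi, hSi'⟩ := exists_sides m _ _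
    (hop (fun t => {x | t * x ∈ A})) (hop (fun r => {x | x * r ∈ A}))
  have gen : ∀ (t : MPAct G (mu m)) (T : Side m D t), (∫ p, T.q p ∂(mu m) < δ) →
      ∀ (r : ℝ) (k : Kern m D r), m.M (fun c => k.sm T.q (c * c)) ≤ α / 4 := by
    intro t T hT r k
    apply hδ' m D (k.sm T.q) k.L (fun g => k.sm_mem T.hq T.q01 g) k.Lnn
      (fun x y => k.sm_lip T.hq T.q01 x y)
    have := k.exchange T.q (T.hq.integrable _)
    show m.M (fun c => ∫ p, T.q p * k.W c p ∂(mu m)) < δ
    rw [this]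
    exact hT
  have hkey : ∀ H : Finset G, α / 2 ≤ (mu m).real (good A F H) := by
    intro H
    have := key_lemma m A F (α / 4) D S S' hSC hSC' (gen _ S (by rw [hSi]; exact h1))
      (gen _ S' (by rw [hSi']; exact h2)) H
    rw [hμA] at this
    linarith
  refine ⟨F, ?_⟩
  have hanti : Antitone (fun H : Finset G => good A F H) := by
    rintro H H' hHH p ⟨hA, b, hb, hc, hd⟩
    exact ⟨hA, b, fun h => hb (hHH h), fun h hh => hc h (hHH hh), hd⟩
  have ht := tendsto_measure_iInter_atTop (μ := mu m)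
    (fun H : Finset G => (good_measurable A F H).nullMeasurableSet) hanti
    ⟨∅, measure_ne_top _ _⟩
  have ht2 : Tendsto (fun H : Finset G => (mu m).real (good A F H)) atTop
      (𝓝 ((mu m).real (⋂ H : Finset G, good A F H))) :=
    (ENNReal.tendsto_toReal (measure_ne_top _ _)).comp ht
  have h3 : α / 2 ≤ (mu m).real (⋂ H : Finset G, good A F H) := ge_of_tendsto' ht2 hkey
  have h4 : (⋂ H : Finset G, good A F H).Nonempty := by
    by_contra hcon
    rw [Set.not_nonempty_iff_eq_empty] at hcon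
    rw [hcon, measureReal_empty] at h3
    linarith
  obtain ⟨p, hp⟩ := h4
  exact ⟨p, fun H => Set.mem_iInter.mp hp H⟩

/-- extraction of the sequence -/
theorem extract [Infinite G] (A : Set G) (F : Finset G) (p : Ultrafilter G)
    (hp : ∀ H : Finset G, p ∈ good A F H) :
    ∃ (b : ℕ → G) (t r : G), Function.Injective b ∧ (∀ i, b i ∈ A) ∧
      ∀ i j, i < j → t * (b i * b j) ∈ A ∧ (b j * b i) * r ∈ A := by
  classical
  obtain ⟨f, hf1, hf2⟩ := exists_seq_of_forall_finset_exists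
    (fun b : G => b ∈ A ∧ (∃ t ∈ F, {x | t * (b * x) ∈ A} ∈ p) ∧
      (∃ r ∈ F, {x | (x * b) * r ∈ A} ∈ p))
    (fun x y : G => x ≠ y ∧ (∀ t ∈ F, {z | t * (x * z) ∈ A} ∈ p → t * (x * y) ∈ A) ∧
      (∀ r ∈ F, {z | (z * x) * r ∈ A} ∈ p → (y * x) * r ∈ A))
    (by
      intro s _
      obtain ⟨hA, b, hbH, hb1, hb2, hb3⟩ := hp ({1} ∪ s ∪ (F ×ˢ s).image (fun q => q.1 * q.2) ∪
        (s ×ˢ F).image (fun q => q.1 * q.2))
      refine ⟨b, ⟨?_, hb2, hb3⟩, fun x hx => ⟨?_, fun t ht h1 => ?_, fun r hr h1 => ?_⟩⟩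
      · have := (hb1 1 (by simp)).1 (by simpa using hA)
        simpa using this
      · rintro rfl
        apply hbH
        simp [hx]
      · have hmem : t * x ∈ ({1} ∪ s ∪ (F ×ˢ s).image (fun q => q.1 * q.2) ∪
          (s ×ˢ F).image (fun q => q.1 * q.2) : Finset G) := by
          apply Finset.mem_union_left
          apply Finset.mem_union_right
          exact Finset.mem_image.mpr ⟨(t, x), Finset.mem_product.mpr ⟨ht, hx⟩, rfl⟩
        have := (hb1 _ hmem).1 (by simpa [mul_assoc] using h1)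
        simpa [mul_assoc] using this
      · have hmem : x * r ∈ ({1} ∪ s ∪ (F ×ˢ s).image (fun q => q.1 * q.2) ∪
          (s ×ˢ F).image (fun q => q.1 * q.2) : Finset G) := by
          apply Finset.mem_union_right
          exact Finset.mem_image.mpr ⟨(x, r), Finset.mem_product.mpr ⟨hx, hr⟩, rfl⟩
        have := (hb1 _ hmem).2 (by simpa [mul_assoc] using h1)
        simpa [mul_assoc] using this)
  have ht : ∀ n, ∃ t : F, {x | (t : G) * (f n * x) ∈ A} ∈ p := by
    intro n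
    obtain ⟨_, ⟨t, ht, h⟩, _⟩ := hf1 n
    exact ⟨⟨t, ht⟩, h⟩
  have hr : ∀ n, ∃ r : F, {x | (x * f n) * (r : G) ∈ A} ∈ p := by
    intro n
    obtain ⟨_, _, ⟨r, hr, h⟩⟩ := hf1 n
    exact ⟨⟨r, hr⟩, h⟩
  choose τ hτ using ht
  choose σ hσ using hr
  obtain ⟨⟨t, r⟩, hfib⟩ := Finite.exists_infinite_fiber (fun n => (τ n, σ n))
  have hinf : (((fun n => (τ n, σ n)) ⁻¹' {(t, r)}) : Set ℕ).Infinite := Set.infinite_coe_iff.mp hfib
  set e := Nat.orderEmbeddingOfSet ((fun n => (τ n, σ n)) ⁻¹' {(t, r)}) with he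
  have hemem : ∀ n, (τ (e n), σ (e n)) = (t, r) := by
    intro n
    have h1 : e n ∈ Set.range e := ⟨n, rfl⟩
    rw [he, Nat.orderEmbeddingOfSet_range] at h1
    exact h1
  refine ⟨fun n => f (e n), t, r, ?_, fun i => (hf1 _).1, fun i j hij => ?_⟩
  · intro i j hij
    by_contra hne
    rcases lt_or_gt_of_ne hne with h | h
    · exact (hf2 _ _ (e.strictMono h)).1 hij
    · exact (hf2 _ _ (e.strictMono h)).1 hij.symm
  · have h1 := hf2 _ _ (e.strictMono hij)
    have h2 := hemem i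
    have h3 : τ (e i) = t := congrArg Prod.fst h2
    have h4 : σ (e i) = r := congrArg Prod.snd h2
    refine ⟨h1.2.1 t t.2 ?_, h1.2.2 r r.2 ?_⟩
    · have := hτ (e i)
      rwa [h3] at this
    · have := hσ (e i)
      rwa [h4] at this

end Pool.Agent.TH396.PS
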